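import Pool.Agent.H306.DF.Stm
import Pool.Agent.H219.Dy.Ode
import Pool.Agent.H219.Dy.Inv

/-! The truncated forced system with clamp: existence and positivity. -/

namespace Pool.Agent.H306.DF

open Set Filter Topology NNReal Metric Pool.Agent.H219.Dy Pool.Agent.H219.Dz

theorem p1x_field (N : ℕ) (κ e : ℕ → ℝ) (hκ : ∀ n, 0 ≤ κ n) (he : ∀ n, 0 ≤ e n) (δ B : ℝ)
    (hδ : 0 ≤ δ) (hB : 0 ≤ B) : ∃ K L : ℝ≥0, LipschitzWith K (field N κ e δ B) ∧
      ∀ x, ‖field N κ e δ B x‖ ≤ L := by
  let L : ℝ := ∑ i : Fin (N+1), κ i * (δ * B^2 + B * (B + e i))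
  let K : ℝ := ∑ i : Fin (N+1), κ i * (δ * (2*B) + (2*B + e i))
  have hterm : ∀ i : Fin (N+1), 0 ≤ κ i * (δ * B^2 + B * (B + e i)) := fun i => by
    have := hκ i; have := he i; positivity
  have hterm2 : ∀ i : Fin (N+1), 0 ≤ κ i * (δ * (2*B) + (2*B + e i)) := fun i => by
    have := hκ i; have := he i; positivity
  have hL0 : 0 ≤ L := Finset.sum_nonneg fun i _ => hterm i
  have hK0 : 0 ≤ K := Finset.sum_nonneg fun i _ => hterm2 i
  refine ⟨⟨K, hK0⟩, ⟨L, hL0⟩, ?_, ?_⟩
  · apply LipschitzWith.of_dist_le_mul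
    intro x y
    rw [dist_eq_norm, dist_eq_norm]
    apply (pi_norm_le_iff_of_nonneg (by positivity)).2
    intro i
    have hle : κ i * (δ * (2*B) + (2*B + e i)) ≤ K :=
      Finset.single_le_sum (f := fun i : Fin (N+1) => κ i * (δ * (2*B) + (2*B + e i)))
        (fun j _ => hterm2 j) (Finset.mem_univ i)
    refine le_trans ?_ (mul_le_mul_of_nonneg_right hle (norm_nonneg _))
    set D := ‖x - y‖ with hD
    have hD0 : 0 ≤ D := norm_nonneg _
    simp only [Pi.sub_apply, field, Real.norm_eq_abs]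
    set p := (if (i:ℕ) = 0 then (0:ℝ) else cl B (ext N x (i-1))) with hp
    set q := (if (i:ℕ) = 0 then (0:ℝ) else cl B (ext N y (i-1))) with hq
    have hp0 : 0 ≤ p := by rw [hp]; split_ifs; exact le_refl _; exact cl_nonneg _ _
    have hq0 : 0 ≤ q := by rw [hq]; split_ifs; exact le_refl _; exact cl_nonneg _ _
    have hpB : p ≤ B := by rw [hp]; split_ifs; exact hB; exact cl_le hB _
    have hqB : q ≤ B := by rw [hq]; split_ifs; exact hB; exact cl_le hB _
    have hpq : |p - q| ≤ D := by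
      rw [hp, hq]; split_ifs
      · simpa using hD0
      · exact (cl_lip _ _ _).trans (ext_lip _ _ _ _)
    have h1 : |cl B (x i) - cl B (y i)| ≤ D :=
      (cl_lip _ _ _).trans (by simpa using norm_le_pi_norm (x - y) i)
    have h2 : |cl B (ext N x (i+1)) - cl B (ext N y (i+1))| ≤ D :=
      (cl_lip _ _ _).trans (ext_lip _ _ _ _)
    have c1 := cl_nonneg B (x i); have c2 := cl_nonneg B (y i)
    have c3 := cl_nonneg B (ext N x (i+1)); have c4 := cl_nonneg B (ext N y (i+1))
    have d1 := cl_le hB (x i); have d2 := cl_le hB (y i)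
    have d3 := cl_le hB (ext N x (i+1)); have d4 := cl_le hB (ext N y (i+1))
    set a := cl B (x i); set b := cl B (y i)
    set c := cl B (ext N x (i+1)); set d := cl B (ext N y (i+1))
    have hei := he i
    have heq : κ i * (δ * p^2 - a * (c + e i)) - κ i * (δ * q^2 - b * (d + e i))
        = κ i * (δ * ((p + q) * (p - q)) - ((a - b) * (c + e i) + b * (c - d))) := by ring
    rw [heq, abs_mul, abs_of_nonneg (hκ i), mul_assoc]
    apply mul_le_mul_of_nonneg_left _ (hκ i)
    have t1 : |δ * ((p + q) * (p - q))| ≤ δ * (2 * B) * D := by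
      rw [abs_mul, abs_mul, abs_of_nonneg hδ, abs_of_nonneg (by positivity : 0 ≤ p + q), mul_assoc]
      apply mul_le_mul_of_nonneg_left _ hδ
      exact mul_le_mul (by linarith) hpq (abs_nonneg _) (by positivity)
    have t2 : |(a - b) * (c + e i)| ≤ (B + e i) * D := by
      rw [abs_mul, abs_of_nonneg (by positivity : 0 ≤ c + e i), mul_comm]
      exact mul_le_mul (by linarith) h1 (abs_nonneg _) (by positivity)
    have t3 : |b * (c - d)| ≤ B * D := by
      rw [abs_mul, abs_of_nonneg c2]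
      exact mul_le_mul d2 h2 (abs_nonneg _) hB
    calc |δ * ((p + q) * (p - q)) - ((a - b) * (c + e i) + b * (c - d))|
        ≤ |δ * ((p + q) * (p - q))| + |(a - b) * (c + e i) + b * (c - d)| := abs_sub _ _
      _ ≤ |δ * ((p + q) * (p - q))| + (|(a - b) * (c + e i)| + |b * (c - d)|) := by
          gcongr; exact abs_add_le _ _
      _ ≤ δ * (2 * B) * D + ((B + e i) * D + B * D) := by gcongr
      _ = (δ * (2*B) + (2*B + e i)) * D := by ring
  · intro x
    apply (pi_norm_le_iff_of_nonneg hL0).2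
    intro i
    have hle : κ i * (δ * B^2 + B * (B + e i)) ≤ L :=
      Finset.single_le_sum (f := fun i : Fin (N+1) => κ i * (δ * B^2 + B * (B + e i)))
        (fun j _ => hterm j) (Finset.mem_univ i)
    refine le_trans ?_ hle
    simp only [field, Real.norm_eq_abs]
    rw [abs_mul, abs_of_nonneg (hκ i)]
    apply mul_le_mul_of_nonneg_left _ (hκ i)
    set p := (if (i:ℕ) = 0 then (0:ℝ) else cl B (ext N x (i-1))) with hp
    have hp0 : 0 ≤ p := by rw [hp]; split_ifs; exact le_refl _; exact cl_nonneg _ _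
    have hpB : p ≤ B := by rw [hp]; split_ifs; exact hB; exact cl_le hB _
    have c1 := cl_nonneg B (x i); have d1 := cl_le hB (x i)
    have c3 := cl_nonneg B (ext N x (i+1)); have d3 := cl_le hB (ext N x (i+1))
    have hei := he i
    have t1 : δ * p^2 ≤ δ * B^2 := by gcongr
    have t2 : cl B (x i) * (cl B (ext N x (i+1)) + e i) ≤ B * (B + e i) := by gcongr
    rw [abs_le]
    constructor
    · have : 0 ≤ δ * p^2 := by positivity
      have : 0 ≤ δ * B^2 := by positivity
      linarith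
    · have : 0 ≤ cl B (x i) * (cl B (ext N x (i+1)) + e i) := by positivity
      have : 0 ≤ B * (B + e i) := by positivity
      linarith


theorem p1x_exists (N : ℕ) (κ e : ℕ → ℝ) (hκ : ∀ n, 0 ≤ κ n) (he : ∀ n, 0 ≤ e n) (δ B : ℝ)
    (hδ : 0 ≤ δ) (hB : 0 ≤ B) (w : Fin (N+1) → ℝ) (T : ℝ) (hT : 0 ≤ T) (x0 : Fin (N+1) → ℝ) :
    ∃ α : ℝ → Fin (N+1) → ℝ, α 0 = x0 ∧
      ∀ t ∈ Icc (0:ℝ) T, HasDerivWithinAt α (field N κ e δ B (α t) + w) (Icc 0 T) t := by
  obtain ⟨K, L, hK, hL⟩ := p1x_field N κ e hκ he δ B hδ hB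
  apply global_bdd (fun x => field N κ e δ B x + w) K (L + ‖w‖₊) _ _ T hT
  · apply LipschitzWith.of_dist_le_mul
    intro x y
    rw [dist_add_right]
    exact hK.dist_le_mul x y
  · intro x
    refine (norm_add_le _ _).trans ?_
    rw [NNReal.coe_add, coe_nnnorm]
    exact add_le_add (hL x) le_rfl

theorem p1x_nonneg (N : ℕ) (κ : ℕ → ℝ) (hκ : ∀ n, 0 ≤ κ n) (B f : ℝ) (hf : 0 ≤ f)
    (T : ℝ) (U : ℕ → ℝ → ℝ) (h0 : ∀ n, n ≤ N → 0 ≤ U n 0)
    (hcl : ∀ n, N ≤ n → U n = U N)
    (hU : ∀ n, n ≤ N → ∀ t ∈ Icc (0:ℝ) T, HasDerivWithinAt (U n)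
        (κ n * ((if n = 0 then 0 else cl B (U (n-1) t))^2
          - cl B (U n t) * cl B (U (n+1) t)) + fo f n) (Icc 0 T) t) :
    ∀ n, ∀ t ∈ Icc (0:ℝ) T, 0 ≤ U n t := by
  have hfo : ∀ n, 0 ≤ fo f n := by
    intro n
    unfold fo
    split_ifs
    · exact hf
    · exact le_rfl
  have main : ∀ η > 0, ∀ t ∈ Icc (0:ℝ) T, ∀ i : Fin (N+1), 0 < U i t + η * (1 + t) := by
    intro η hη
    apply barrier T (fun (i : Fin (N+1)) t => U i t + η * (1 + t))
      (fun (i : Fin (N+1)) t => (κ i * ((if (i:ℕ) = 0 then 0 else cl B (U (i-1) t))^2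
          - cl B (U i t) * cl B (U (i+1) t)) + fo f i) + η)
    · intro i
      have := h0 i (by omega)
      simp; linarith
    · intro i t ht
      have h1 := hU i (by omega) t ht
      have h2 : HasDerivWithinAt (fun t : ℝ => η * (1 + t)) η (Icc 0 T) t := by
        have := ((hasDerivWithinAt_id t (Icc 0 T)).const_add 1).const_mul η
        simpa using this
      exact h1.add h2
    · intro t ht _ i hi
      have hneg : U i t ≤ 0 := by
        have : 0 < η * (1 + t) := by have := ht.1; positivity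
        linarith
      rw [cl_eq_zero hneg]
      have h3 : 0 ≤ κ i * ((if (i:ℕ) = 0 then 0 else cl B (U (i-1) t))^2 - 0 * cl B (U (i+1) t)) := by
        have := hκ i
        rw [zero_mul, sub_zero]; positivity
      have h4 := hfo i
      linarith
  have h1 : ∀ n, n ≤ N → ∀ t ∈ Icc (0:ℝ) T, 0 ≤ U n t := by
    intro n hn t ht
    by_contra hneg
    push Not at hneg
    have ht1 : 0 < 1 + t := by have := ht.1; linarith
    have := main (-(U n t) / (2 * (1 + t))) (by apply div_pos <;> linarith) t ht ⟨n, by omega⟩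
    simp only at this
    have h3 : -(U n t) / (2 * (1 + t)) * (1 + t) = -(U n t) / 2 := by field_simp
    rw [h3] at this
    linarith
  intro n t ht
  rcases le_total n N with h | h
  · exact h1 n h t ht
  · rw [hcl n h]; exact h1 N le_rfl t ht

theorem p1 : S_P1 := by
  intro N κ hκ B hB f hf T hT u0 hu0
  obtain ⟨α, h0, hα⟩ := p1x_exists N κ (fun _ => 0) hκ (fun _ => le_rfl) 1 B zero_le_one hB
    (fun i => fo f i) T hT (fun i => u0 i)
  have hA : ∀ n, n ≤ N → (fun n t => ext N (α t) n) n 0 = u0 n := by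
    intro n hn
    simp only [Pool.Agent.H219.Dy.ext, h0, min_eq_left hn]
  have hB' : ∀ n, N ≤ n → (fun n t => ext N (α t) n) n = (fun n t => ext N (α t) n) N := by
    intro n hn
    funext t
    simp only [Pool.Agent.H219.Dy.ext, min_eq_right hn, min_self]
  have hC : ∀ n, n ≤ N → ∀ t ∈ Icc (0:ℝ) T, HasDerivWithinAt ((fun n t => ext N (α t) n) n)
      (κ n * ((if n = 0 then 0 else cl B ((fun n t => ext N (α t) n) (n-1) t))^2
        - cl B ((fun n t => ext N (α t) n) n t) * cl B ((fun n t => ext N (α t) n) (n+1) t))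
        + fo f n) (Icc 0 T) t := by
    intro n hn t ht
    have h1 := hα t ht
    rw [hasDerivWithinAt_pi] at h1
    have h2 := h1 (⟨n, by omega⟩ : Fin (N+1))
    simp only [field, Pi.add_apply, one_mul, add_zero] at h2
    simp only [Pool.Agent.H219.Dy.ext, min_eq_left hn] at h2 ⊢
    exact h2
  exact ⟨fun n t => ext N (α t) n, hA, hB', p1x_nonneg N κ hκ B f hf T _
    (fun n hn => (hu0 n).trans (hA n hn).ge) hB' hC, hC⟩

end Pool.Agent.H306.DF
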