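import Pool.Agent.H306.DF.Stm

set_option maxHeartbeats 4000000
set_option autoImplicit false

namespace Pool.Agent.H306.DF

open Set Filter Topology Pool.Agent.H219.Dy Pool.Agent.H219.Dz

theorem p2_barrier (b : ℝ) (hb : 0 < b) (f : ℝ) (hf : 0 ≤ f) (N : ℕ) (T : ℝ) (U D : ℕ → ℝ → ℝ)
    (hpos : ∀ n, ∀ t ∈ Icc (0:ℝ) T, 0 ≤ U n t) (A η : ℝ) (hA : 0 ≤ A) (hη : 0 < η)
    (hD : ∀ n, n ≤ N → ∀ t ∈ Icc (0:ℝ) T, HasDerivWithinAt (U n) (D n t) (Icc 0 T) t)
    (hDe : ∀ t ∈ Icc (0:ℝ) T, ∑ n ∈ Finset.range (N+1), (U n t / b ^ n) ^ 2 ≤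
      (A + η + (f + η) * T) ^ 2 → ∀ n, n ≤ N → D n t =
        b ^ (2 * n) / b * ((if n = 0 then 0 else U (n-1) t)^2 - U n t * U (n+1) t) + fo f n)
    (h0 : ∑ n ∈ Finset.range (N+1), (U n 0 / b ^ n) ^ 2 ≤ A ^ 2) :
    ∀ t ∈ Icc (0:ℝ) T, ∑ n ∈ Finset.range (N+1), (U n t / b ^ n) ^ 2 <
      (A + η + (f + η) * t) ^ 2 := by
  have hbn : ∀ n : ℕ, (0:ℝ) < b ^ n := fun n => by positivity
  have key : ∀ t ∈ Icc (0:ℝ) T, ∀ i : Unit,
      0 < (fun (_ : Unit) (t : ℝ) => (A + η + (f + η) * t) ^ 2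
        - ∑ n ∈ Finset.range (N+1), (U n t / b ^ n) ^ 2) i t := by
    apply barrier T _ (fun (_ : Unit) t => 2 * (A + η + (f + η) * t) * (f + η)
      - ∑ n ∈ Finset.range (N+1), 2 * (U n t / b ^ n) * (D n t / b ^ n))
    · intro i
      simp only [mul_zero, add_zero]
      nlinarith
    · intro i t ht
      apply HasDerivWithinAt.sub
      · have h1 : HasDerivWithinAt (fun x => A + η + (f + η) * x) ((f + η) * 1) (Icc 0 T) t :=
          ((hasDerivWithinAt_id t (Icc (0:ℝ) T)).const_mul (f + η)).const_add (A + η)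
        refine (h1.pow 2).congr_deriv ?_
        norm_num
      · apply HasDerivWithinAt.fun_sum
        intro n hn
        have := ((hD n (by have := Finset.mem_range.1 hn; omega) t ht).div_const (b ^ n)).pow 2
        refine this.congr_deriv ?_
        norm_num
    · intro t ht hall i hi
      have htI : t ∈ Icc (0:ℝ) T := ⟨ht.1.le, ht.2⟩
      have hfη : 0 < f + η := by linarith
      have hℓ : 0 < A + η + (f + η) * t := by
        have := mul_nonneg hfη.le ht.1.le
        linarith
      have hmono : A + η + (f + η) * t ≤ A + η + (f + η) * T := by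
        have := mul_le_mul_of_nonneg_left ht.2 hfη.le
        linarith
      have hEQ : ∑ n ∈ Finset.range (N+1), (U n t / b ^ n) ^ 2 = (A + η + (f + η) * t) ^ 2 := by
        linarith
      have hEQ2 : ∑ n ∈ Finset.range (N+1), (U n t / b ^ n) ^ 2 ≤ (A + η + (f + η) * T) ^ 2 := by
        rw [hEQ]
        exact pow_le_pow_left₀ hℓ.le hmono 2
      have h5 : ∑ n ∈ Finset.range (N+1), 2 * (U n t / b ^ n) * (D n t / b ^ n)
          = (∑ n ∈ Finset.range (N+1), 2 * (U n t / b ^ n) * FE b (fun k => U k t / b ^ k) n)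
            + 2 * (U 0 t) * f := by
        have h6 : ∀ n ∈ Finset.range (N+1), 2 * (U n t / b ^ n) * (D n t / b ^ n)
            = 2 * (U n t / b ^ n) * FE b (fun k => U k t / b ^ k) n
              + (if n = 0 then 2 * U 0 t * f else 0) := by
          intro n hn
          rw [hDe t htI hEQ2 n (by have := Finset.mem_range.1 hn; omega), add_div,
            conv_FE b hb (fun k => U k t) n, mul_add]
          congr 1
          unfold fo
          split_ifs with h
          · subst h
            simp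
          · simp
        rw [Finset.sum_congr rfl h6, Finset.sum_add_distrib, Finset.sum_ite_eq' (Finset.range (N+1)) 0]
        simp
      rw [h5, energyE_id b (fun k => U k t / b ^ k) N]
      have q1 := hpos N t htI
      have q2 := hpos (N+1) t htI
      have q0 := hpos 0 t htI
      have q3 : 0 ≤ b ^ (3 * N) * (U N t / b ^ N) ^ 2 * (U (N+1) t / b ^ (N+1)) := by positivity
      have q4 : (U 0 t) ^ 2 ≤ (A + η + (f + η) * t) ^ 2 := by
        have h7 := Finset.single_le_sum (f := fun k => (U k t / b ^ k) ^ 2)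
          (fun k _ => by positivity) (Finset.mem_range.2 (Nat.succ_pos N))
        rw [hEQ] at h7
        simpa using h7
      have q5 : U 0 t ≤ A + η + (f + η) * t := abs_le_of_sq_le_sq' q4 hℓ.le |>.2
      have q6 : f * U 0 t ≤ f * (A + η + (f + η) * t) := mul_le_mul_of_nonneg_left q5 hf
      have q7 : 0 < η * (A + η + (f + η) * t) := mul_pos hη hℓ
      linarith
  intro t ht
  have := key t ht ()
  simp only at this
  linarith

theorem p2 : S_P1 → S_P2 := by
  intro hP1 b hb1 f hf N T hT S hS u0 hu0 h0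
  have hb : 0 < b := by linarith
  have hbn : ∀ n : ℕ, (0:ℝ) < b ^ n := fun n => by positivity
  set Q : ℝ := (S + 1 + (f + 1) * T) ^ 2 with hQd
  have hQ : 0 ≤ Q := by positivity
  set B : ℝ := b ^ N * (1 + Q) with hBd
  have hB : 0 < B := by positivity
  obtain ⟨U, h1, h2, hpos, h3⟩ := hP1 N (fun n => b ^ (2 * n) / b) (fun n => by positivity)
    B hB.le f hf T hT.le u0 hu0
  -- the clamp is inactive below the energy level `Q`
  have hcl : ∀ t ∈ Icc (0:ℝ) T, ∑ n ∈ Finset.range (N+1), (U n t / b ^ n) ^ 2 ≤ Q →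
      ∀ n, cl B (U n t) = U n t := by
    intro t ht hE n
    apply cl_eq (hpos n t ht)
    have key : ∀ n, n ≤ N → U n t ≤ B := by
      intro n hn
      have h5 : (U n t / b ^ n) ^ 2 ≤ Q :=
        (Finset.single_le_sum (f := fun k => (U k t / b ^ k) ^ 2) (fun k _ => by positivity)
          (Finset.mem_range.2 (by omega))).trans hE
      have h6 : U n t / b ^ n ≤ 1 + Q := by
        have : 0 ≤ U n t / b ^ n := by have := hpos n t ht; have := hbn n; positivity
        nlinarith
      rw [div_le_iff₀ (hbn n)] at h6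
      have h7 : b ^ n ≤ b ^ N := pow_le_pow_right₀ hb1 hn
      have h8 : (1 + Q) * b ^ n ≤ (1 + Q) * b ^ N := mul_le_mul_of_nonneg_left h7 (by positivity)
      rw [hBd]
      linarith
    rcases le_total n N with h | h
    · exact key n h
    · rw [h2 n h]; exact key N le_rfl
  have hU0 : ∀ n ∈ Finset.range (N+1), (U n 0 / b ^ n) ^ 2 = (u0 n / b ^ n) ^ 2 := by
    intro n hn
    rw [h1 n (by have := Finset.mem_range.1 hn; omega)]
  have hlev := p2_barrier b hb f hf N T U
    (fun n t => (fun n => b ^ (2 * n) / b) n * ((if n = 0 then 0 else cl B (U (n-1) t))^2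
      - cl B (U n t) * cl B (U (n+1) t)) + fo f n) hpos S 1 hS one_pos h3
    (fun t ht hE n _ => by
      have h := hcl t ht hE
      simp only [h])
    (by rw [Finset.sum_congr rfl hU0]; exact h0)
  have hcl' : ∀ t ∈ Icc (0:ℝ) T, ∀ n, cl B (U n t) = U n t := by
    intro t ht
    apply hcl t ht
    refine (hlev t ht).le.trans ?_
    rw [hQd]
    have h4 : (f + 1) * t ≤ (f + 1) * T := mul_le_mul_of_nonneg_left ht.2 (by linarith)
    have h5 : 0 ≤ (f + 1) * t := mul_nonneg (by linarith) ht.1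
    exact pow_le_pow_left₀ (by linarith) (by linarith) 2
  have h3' : ∀ n, n ≤ N → ∀ t ∈ Icc (0:ℝ) T, HasDerivWithinAt (U n)
      (b ^ (2 * n) / b * ((if n = 0 then 0 else U (n-1) t)^2 - U n t * U (n+1) t) + fo f n)
      (Icc 0 T) t := by
    intro n hn t ht
    have h5 := h3 n hn t ht
    simp only [hcl' t ht] at h5
    exact h5
  refine ⟨U, h1, h2, hpos, h3', ?_⟩
  intro S' hS' hS0 t ht
  have h1t : 0 < 1 + t := by linarith [ht.1]
  have hE0 : 0 ≤ ∑ n ∈ Finset.range (N+1), (U n t / b ^ n) ^ 2 :=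
    Finset.sum_nonneg fun n _ => by positivity
  have hft : 0 ≤ f * t := mul_nonneg hf ht.1
  have hsq : Real.sqrt (∑ n ∈ Finset.range (N+1), (U n t / b ^ n) ^ 2) ≤ S' + f * t := by
    apply le_of_forall_pos_le_add
    intro ε hε
    have hη : 0 < ε / (1 + t) := by positivity
    have h6 := p2_barrier b hb f hf N T U
      (fun n t => b ^ (2 * n) / b * ((if n = 0 then 0 else U (n-1) t)^2 - U n t * U (n+1) t)
        + fo f n) hpos S' (ε / (1 + t)) hS' hη h3' (fun t ht hE n _ => rfl)
      (by rw [Finset.sum_congr rfl hU0]; exact hS0) t ht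
    have e : S' + ε / (1 + t) + (f + ε / (1 + t)) * t = S' + f * t + ε := by
      field_simp
      ring
    rw [e] at h6
    exact (Real.sqrt_le_left (by linarith)).2 h6.le
  calc ∑ n ∈ Finset.range (N+1), (U n t / b ^ n) ^ 2
      = Real.sqrt (∑ n ∈ Finset.range (N+1), (U n t / b ^ n) ^ 2) ^ 2 := (Real.sq_sqrt hE0).symm
    _ ≤ (S' + f * t) ^ 2 := pow_le_pow_left₀ (Real.sqrt_nonneg _) hsq 2

end Pool.Agent.H306.DF
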