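import Pool.Agent.H306.DF.Stm
import Pool.Agent.H219.Dz.Smooth

/-! Bounds of the truncated solutions with a force. -/

set_option maxHeartbeats 4000000

namespace Pool.Agent.H306.DF

open Set Filter Topology Pool.Agent.H219.Dy Pool.Agent.H219.Dz

/-- the truncated solutions with their bounds -/
theorem p3 : S_P3 := by
  intro hP2 b hb1 r hr1 hrb hR hOK f hf a ha S hS haS N m0 hm0 hm
  have hb : 0 < b := by linarith
  have hr0 : 0 < r := by linarith
  have hbn : ∀ n : ℕ, (0:ℝ) < b ^ n := fun n => by positivity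
  let κ : ℕ → ℝ := fun n => b ^ (2 * n) / b
  have hκ : ∀ n, 0 < κ n := fun n => by simp only [κ]; positivity
  have hκR : ∀ n, κ (n+1) = b ^ 2 * κ n := by
    intro n; simp only [κ]; ring
  set T : ℝ := (N:ℝ) + 1 with hTd
  have hT : 0 < T := by positivity
  have hcan : ∀ n, b ^ n * a n / b ^ n = a n := by
    intro n
    have := (hbn n).ne'
    field_simp
  obtain ⟨U, hU0, hUcl, hUb, hUd, hUE⟩ := hP2 b hb1 f hf (N+2) T hT S hS.le (fun n => b ^ n * a n)
    (fun n => by have := ha n; positivity) (by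
      simp only [hcan]
      exact haS (N+2))
  simp only [hcan] at hUE
  have hVd : ∀ n, n ≤ N + 2 → ∀ t ∈ Icc (0:ℝ) T, HasDerivWithinAt (fun t => U n t / b ^ n)
      (FE b (fun k => U k t / b ^ k) n + fo f n) (Icc 0 T) t := by
    intro n hn t ht
    have h := (hUd n hn t ht).div_const (b ^ n)
    refine h.congr_deriv ?_
    have hc := conv_FE b hb (fun k => U k t) n
    rw [add_div]
    refine congrArg₂ (· + ·) hc ?_
    unfold fo
    split_ifs with h0
    · rw [h0, pow_zero, div_one]
    · rw [zero_div]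
  have hV0 : ∀ n, n ≤ N + 2 → U n 0 / b ^ n = a n := by
    intro n hn
    rw [hU0 n hn]
    exact hcan n
  have hVn : ∀ n, ∀ t ∈ Icc (0:ℝ) T, 0 ≤ U n t / b ^ n := by
    intro n t ht
    have := hUb n t ht
    have := hbn n
    positivity
  have hgen : ∀ S' : ℝ, 0 < S' → ∑ n ∈ Finset.range (N+2+1), a n ^ 2 ≤ S' ^ 2 →
      (∀ n, ∀ t ∈ Icc (0:ℝ) T, U n t / b ^ n ≤ S' + f * t) ∧
        ∀ n, ∀ t ∈ Icc (0:ℝ) T, U n t ≤ b ^ n * (S' + f * t) := by
    intro S' hS' haS'
    have hVS1 : ∀ n, n ≤ N + 2 → ∀ t ∈ Icc (0:ℝ) T, U n t / b ^ n ≤ S' + f * t := by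
      intro n hn t ht
      have hft : 0 ≤ S' + f * t := by have := mul_nonneg hf ht.1; linarith
      have h1 : (U n t / b ^ n) ^ 2 ≤ (S' + f * t) ^ 2 :=
        (Finset.single_le_sum (f := fun k => (U k t / b ^ k) ^ 2) (fun k _ => by positivity)
          (Finset.mem_range.2 (by omega))).trans (hUE S' hS'.le haS' t ht)
      exact (le_abs_self _).trans (abs_le_of_sq_le_sq h1 hft)
    have hVS : ∀ n, ∀ t ∈ Icc (0:ℝ) T, U n t / b ^ n ≤ S' + f * t := by
      intro n t ht
      rcases le_total n (N+2) with h | h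
      · exact hVS1 n h t ht
      · rw [hUcl n h]
        have h1 := hVS1 (N+2) le_rfl t ht
        have h2 := hUb (N+2) t ht
        have h3 : b ^ (N+2) ≤ b ^ n := pow_le_pow_right₀ hb1 h
        have h4 : U (N+2) t / b ^ n ≤ U (N+2) t / b ^ (N+2) := by
          apply div_le_div_of_nonneg_left h2 (hbn _) h3
        linarith
    refine ⟨hVS, ?_⟩
    intro n t ht
    have h1 := hVS n t ht
    rw [div_le_iff₀ (hbn n)] at h1
    linarith
  obtain ⟨hVS, hUS⟩ := hgen S hS (haS (N+2))
  -- the region
  let ε : ℕ → ℝ := fun n => 1 / 100 / r ^ n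
  have hε0 : ∀ n, 0 < ε n := fun n => by simp only [ε]; positivity
  have hε1 : ∀ n, ε n ≤ 1/100 := by
    intro n
    simp only [ε]
    apply div_le_self (by norm_num)
    exact one_le_pow₀ hr1.le
  have hεR : ∀ n, ε n = r * ε (n+1) := by
    intro n
    simp only [ε]
    rw [pow_succ]
    have := hr0.ne'
    field_simp
  have hsub : ∀ t ∈ Icc (0:ℝ) T, Icc (0:ℝ) t ⊆ Icc (0:ℝ) T := fun t ht => Icc_subset_Icc_right ht.2
  have hfo : ∀ n, 1 ≤ n → fo f n = 0 := fun n hn => if_neg (by omega)
  -- constant size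
  have hconst : ∀ n, ∀ t ∈ Icc (0:ℝ) T, U n t ≤ (10 * b ^ 2) * (m0 + f * t) := by
    have hsum : ∑ n ∈ Finset.range (N+2+1), a n ^ 2 ≤ (2 * m0) ^ 2 := by
      have h1 : ∑ n ∈ Finset.range (N+2+1), a n ^ 2
          ≤ ∑ n ∈ Finset.range (N+2+1), m0 ^ 2 * (1 / (2:ℝ)) ^ n := by
        apply Finset.sum_le_sum
        intro n hn
        have h2 := hm n (by have := Finset.mem_range.1 hn; omega)
        have h3 : 0 ≤ b ^ n * a n := by have := ha n; positivity
        have h4 : (b ^ n * a n) ^ 2 ≤ m0 ^ 2 := pow_le_pow_left₀ h3 h2 2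
        have h5 : (2:ℝ) ^ n ≤ (b ^ 2) ^ n := pow_le_pow_left₀ (by norm_num) (by linarith) n
        have h6 : (2:ℝ) ^ n * a n ^ 2 ≤ (b ^ n * a n) ^ 2 := by
          have e : (b ^ n * a n) ^ 2 = (b ^ 2) ^ n * a n ^ 2 := by
            rw [mul_pow, ← pow_mul, ← pow_mul, mul_comm n 2]
          rw [e]
          exact mul_le_mul_of_nonneg_right h5 (by positivity)
        rw [one_div, inv_pow, ← div_eq_mul_inv, le_div_iff₀ (by positivity)]
        linarith
      have h2 := sum_geometric_two_le (N+2+1)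
      rw [← Finset.mul_sum] at h1
      have h3 : m0 ^ 2 * ∑ n ∈ Finset.range (N+2+1), (1 / (2:ℝ)) ^ n ≤ m0 ^ 2 * 2 :=
        mul_le_mul_of_nonneg_left h2 (by positivity)
      have h4 : 0 < m0 ^ 2 := by positivity
      calc _ ≤ _ := h1
        _ ≤ _ := h3
        _ ≤ (2 * m0) ^ 2 := by rw [mul_pow]; linarith
    obtain ⟨_, hU2⟩ := hgen (2 * m0) (by positivity) hsum
    intro n t ht
    have hft : 0 ≤ f * t := mul_nonneg hf ht.1
    refine hOK (N+2) κ hκ hκR ε hε0 hε1 hεR t
      (fun _ => (10 * b ^ 2) * (m0 + f * t)) (fun _ => 0) ?_ ?_ ?_ ?_ U ?_ hUcl ?_ ?_ ht.1 ?_ n t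
      ⟨ht.1, le_rfl⟩
    · intro s _
      exact hasDerivWithinAt_const _ _ _
    · intro s _; positivity
    · intro s _; exact le_rfl
    · intro n s _
      have := hκ n
      have := hε0 n
      simp only [neg_zero]
      positivity
    · exact fun n s hs => hUb n s (hsub t ht hs)
    · intro n hn s hs
      have h1 := hU2 n s (hsub t ht hs)
      have h2 : b ^ n ≤ b ^ 2 := pow_le_pow_right₀ hb1 hn
      have hfs : f * s ≤ f * t := mul_le_mul_of_nonneg_left hs.2 hf
      have hfs0 : 0 ≤ f * s := mul_nonneg hf hs.1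
      have h3 : b ^ n * (2 * m0 + f * s) ≤ b ^ 2 * (2 * m0 + f * t) :=
        mul_le_mul h2 (by linarith) (by linarith) (by positivity)
      have h4 : 0 ≤ b ^ 2 * (f * t) := by positivity
      have e : 10 * b ^ 2 * (m0 + f * t) / 5 = b ^ 2 * (2 * m0 + f * t) + b ^ 2 * (f * t) := by ring
      rw [e]
      linarith
    · intro n hn
      rw [hU0 n hn]
      have h1 := hm n hn
      have h2 : 1 * m0 ≤ b ^ 2 * m0 := mul_le_mul_of_nonneg_right (by linarith) hm0.le
      have h4 : 0 ≤ b ^ 2 * (f * t) := by positivity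
      have e : 10 * b ^ 2 * (m0 + f * t) / 5 = 2 * (b ^ 2 * m0) + 2 * (b ^ 2 * (f * t)) := by ring
      rw [e]
      linarith
    · intro n hn1 hn s hs
      have h := (hUd n hn s (hsub t ht hs)).mono (hsub t ht)
      rw [hfo n hn1, add_zero] at h
      exact h
  have htilt : ∀ m, m ≤ N + 2 → ∀ n, ∀ t ∈ Icc (0:ℝ) T, 0 < t →
      U n t ≤ 5 * b ^ (m+2) * (S + f * t) + 20000 * b / b ^ (2 * m) * (1 / t) := by
    intro m hmN n t ht htp
    have hft : 0 ≤ f * t := mul_nonneg hf ht.1
    set Q : ℝ := 20000 * b / b ^ (2 * m) with hQd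
    have hQ : 0 < Q := by positivity
    have hκε : ∀ n, 1 / Q ≤ κ (n + m) * ε n / 200 := by
      intro n
      induction n with
      | zero =>
        simp only [κ, ε, hQd, zero_add, pow_zero]
        apply le_of_eq
        field_simp
        norm_num
      | succ n ih =>
        have e0 : κ (n + 1 + m) = b ^ 2 * κ (n + m) := by
          rw [show n + 1 + m = (n + m) + 1 by ring]; exact hκR _
        rw [e0]
        have h1 : κ (n+m) * ε n = r * (κ (n+m) * ε (n+1)) := by rw [hεR n]; ring
        have h2 : 0 < κ (n+m) * ε (n+1) := mul_pos (hκ _) (hε0 _)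
        have h3 := mul_le_mul_of_nonneg_right hrb h2.le
        have h4 : b ^ 2 * κ (n+m) * ε (n+1) = b ^ 2 * (κ (n+m) * ε (n+1)) := by ring
        rw [h4]
        linarith
    set τ : ℝ := Q / (5 * m0) with hτd
    have hτ : 0 < τ := by positivity
    set B : ℝ := 5 * b ^ (m+2) * (S + f * t) with hBd
    have hB : 0 < B := by positivity
    let M : ℝ → ℝ := fun s => B + Q * (1 / (s + τ))
    let M' : ℝ → ℝ := fun s => - (Q * (1 / (s + τ) ^ 2))
    have htl := hOK (N+2-m) (fun n => κ (n + m)) (fun n => hκ _)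
      (fun n => by
        rw [show n + 1 + m = (n + m) + 1 by ring]; exact hκR _)
      ε hε0 hε1 hεR t M M'
      (fun s hs => by
        have hne : s + τ ≠ 0 := by have := hs.1; positivity
        have h1 : HasDerivWithinAt (fun s => s + τ) 1 (Icc 0 t) s := (hasDerivWithinAt_id s _).add_const τ
        have h2 := ((h1.inv hne).const_mul Q).const_add B
        have e : (fun s => B + Q * (s + τ)⁻¹) = M := by
          funext s; simp only [M, one_div]
        have h3 : HasDerivWithinAt (fun s => B + Q * (s + τ)⁻¹) (Q * (-1 / (s + τ) ^ 2))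
          (Icc 0 t) s := h2
        rw [e] at h3
        refine h3.congr_deriv ?_
        simp only [M']
        ring)
      (fun s hs => by have := hs.1; simp only [M]; positivity)
      (fun s hs => by
        have := hs.1
        simp only [M']
        have : 0 ≤ Q * (1 / (s + τ) ^ 2) := by positivity
        linarith)
      (fun n s hs => by
        have h0t := hs.1
        simp only [M, M', neg_neg]
        have h1 := hκε n
        have h2 : 0 < 1 / (s + τ) := by positivity
        have h3 : (Q * (1 / (s + τ))) ^ 2 ≤ (B + Q * (1 / (s + τ))) ^ 2 := by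
          apply pow_le_pow_left₀ (by positivity); linarith
        have h4 : 1 / (s + τ) ^ 2 = (1 / (s + τ)) ^ 2 := by rw [div_pow, one_pow]
        rw [h4]
        calc Q * (1 / (s + τ)) ^ 2 = 1 / Q * (Q * (1 / (s + τ))) ^ 2 := by field_simp
          _ ≤ 1 / Q * (B + Q * (1 / (s + τ))) ^ 2 := by gcongr
          _ ≤ κ (n + m) * ε n / 200 * (B + Q * (1 / (s + τ))) ^ 2 := by gcongr
          _ = κ (n + m) * ε n * (B + Q * (1 / (s + τ))) ^ 2 / 200 := by ring)
      (fun n => U (n + m)) (fun n s hs => hUb _ s (hsub t ht hs))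
      (fun n hn => by
        rw [hUcl (n+m) (by omega), show N + 2 - m + m = N + 2 by omega])
      (fun n hn s hs => by
        have h0t := hs.1
        have h2 := hUS (n+m) s (hsub t ht hs)
        have hfs : f * s ≤ f * t := mul_le_mul_of_nonneg_left hs.2 hf
        have hfs0 : 0 ≤ f * s := mul_nonneg hf hs.1
        have h3 : b ^ (n+m) ≤ b ^ (m+2) := pow_le_pow_right₀ hb1 (by omega)
        have h4 : b ^ (n+m) * (S + f * s) ≤ b ^ (m+2) * (S + f * t) :=
          mul_le_mul h3 (by linarith) (by linarith) (by positivity)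
        have h6 : 0 < Q * (1 / (s + τ)) := by positivity
        simp only [M, hBd]
        linarith)
      (fun n hn => by
        rw [hU0 (n+m) (by omega)]
        have h1 := hm (n+m) (by omega)
        simp only [M, zero_add]
        have h2 : Q * (1 / τ) = 5 * m0 := by
          rw [hτd]; field_simp
        rw [h2]
        linarith) ht.1
      (fun n hn1 hn s hs => by
        have h1 := (hUd (n+m) (by omega) s (hsub t ht hs)).mono (hsub t ht)
        rw [hfo (n+m) (by omega), add_zero] at h1
        rw [if_neg (by omega)]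
        rw [if_neg (by omega)] at h1
        rw [show n - 1 + m = n + m - 1 by omega, show n + 1 + m = n + m + 1 by ring]
        exact h1)
    have h2 : 1 / (t + τ) ≤ 1 / t := one_div_le_one_div_of_le htp (by linarith)
    have h3 : Q * (1 / (t + τ)) ≤ Q * (1 / t) := mul_le_mul_of_nonneg_left h2 hQ.le
    rcases le_total m n with h | h
    · obtain ⟨k, rfl⟩ : ∃ k, n = k + m := ⟨n - m, by omega⟩
      have h1 := htl k t ⟨ht.1, le_rfl⟩
      simp only [M] at h1
      linarith
    · have h1 := hUS n t ht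
      have h4 : b ^ n ≤ b ^ (m+2) := pow_le_pow_right₀ hb1 (by omega)
      have h5 : b ^ n * (S + f * t) ≤ b ^ (m+2) * (S + f * t) :=
        mul_le_mul_of_nonneg_right h4 (by linarith)
      have h6 : 0 < Q * (1 / t) := by positivity
      have h7 : 0 < b ^ (m+2) * (S + f * t) := by positivity
      rw [hBd]
      linarith
  refine ⟨fun n t => U n t / b ^ n, hV0, fun n t ht => ⟨hVn n t ht, hVS n t ht⟩, ?_, ?_, hVd⟩
  · intro n t ht
    have := hconst n t ht
    have e : b ^ n * (U n t / b ^ n) = U n t := by have := (hbn n).ne'; field_simp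
    simp only
    rw [e]; exact this
  · intro m hmN n hn t ht htp
    have h1 := htilt m hmN n t ht htp
    have e : b ^ n * (U n t / b ^ n) = U n t := by have := (hbn n).ne'; field_simp
    simp only
    rw [e]
    exact h1

end Pool.Agent.H306.DF
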