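import Pool.Agent.H306.DF.Stm
import Pool.Agent.H219.Dy.Limit2
import Pool.Agent.H219.Dy.EulerS

set_option autoImplicit false
set_option maxHeartbeats 4000000

/-! P4: the limit (helper956, for helper306), adapted from `limit_exists2` of helper219. -/

namespace Pool.Agent.H306.DF

open Set Filter Topology Pool.Agent.H219.Dy Pool.Agent.H219.Dz

/-- the Lipschitz constant -/
noncomputable def p4L (b f M : ℝ) (n : ℕ) : ℝ :=
  b ^ (3 * n) * (1 / b ^ 3 * M ^ 2 + M * (M + 0)) + f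

/-- the constant of the quadratic estimate -/
noncomputable def p4C (b f M : ℝ) (n : ℕ) : ℝ :=
  b ^ (3 * n) * (1 / b ^ 3 * (2 * M * p4L b f M (n-1)) +
    (p4L b f M n * (M + 0) + M * p4L b f M (n+1)))

theorem p4L_nonneg {b f M : ℝ} (hb : 0 < b) (hf : 0 ≤ f) (hM : 0 ≤ M) (n : ℕ) :
    0 ≤ p4L b f M n := by
  unfold p4L
  positivity

theorem p4C_nonneg {b f M : ℝ} (hb : 0 < b) (hf : 0 ≤ f) (hM : 0 ≤ M) (n : ℕ) :
    0 ≤ p4C b f M n := by
  have h1 := p4L_nonneg hb hf hM n
  have h2 := p4L_nonneg hb hf hM (n - 1)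
  have h3 := p4L_nonneg hb hf hM (n + 1)
  unfold p4C
  positivity

theorem p4_fo {f : ℝ} (hf : 0 ≤ f) (n : ℕ) : |fo f n| ≤ f := by
  unfold fo
  split_ifs
  · rw [abs_of_nonneg hf]
  · rw [abs_zero]
    exact hf

theorem p4_quad {b : ℝ} (hb : 0 < b) {f : ℝ} (hf : 0 ≤ f) {M : ℝ} (hM : 0 ≤ M) (T : ℝ) (n N : ℕ)
    (hn : n + 1 ≤ N) (V : ℕ → ℝ → ℝ) (hVb : ∀ k, ∀ t ∈ Icc (0:ℝ) T, 0 ≤ V k t ∧ V k t ≤ M)
    (hVd : ∀ k, k ≤ N → ∀ t ∈ Icc (0:ℝ) T, HasDerivWithinAt (V k)
      (FE b (fun j => V j t) k + fo f k) (Icc 0 T) t) :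
    ∀ s ∈ Icc (0:ℝ) T, ∀ t ∈ Icc (0:ℝ) T,
      |V n s - V n t - (s - t) * (FE b (fun k => V k t) n + fo f n)| ≤
        p4C b f M n * |s - t| * |s - t| := by
  have hlip : ∀ k, k ≤ N → ∀ s ∈ Icc (0:ℝ) T, ∀ t ∈ Icc (0:ℝ) T,
      |V k s - V k t| ≤ p4L b f M k * |s - t| := by
    intro k hk s hs t ht
    have := (convex_Icc (0:ℝ) T).norm_image_sub_le_of_norm_hasDerivWithin_le
      (f := V k) (f' := fun t => FE b (fun j => V j t) k + fo f k) (C := p4L b f M k)
      (fun x hx => hVd k hk x hx)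
      (fun x hx => by
        rw [Real.norm_eq_abs, ← rhs_FE b hb]
        have h1 := rhs_bound (fun n => b ^ (3 * n)) (fun _ => 0) (fun n => by positivity)
          (fun _ => le_rfl) (1 / b ^ 3) M (by positivity) (fun j => V j x) k
          (fun j => (hVb j x hx).1) (fun j => (hVb j x hx).2)
        refine (abs_add_le _ _).trans ?_
        exact add_le_add h1 (p4_fo hf k))
      ht hs
    simpa [Real.norm_eq_abs] using this
  intro s hs t ht
  have hsub : uIcc t s ⊆ Icc (0:ℝ) T := uIcc_subset_Icc ht hs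
  have hder : ∀ x ∈ uIcc t s, HasDerivWithinAt
      (fun x => V n x - x * (FE b (fun k => V k t) n + fo f n))
      ((FE b (fun k => V k x) n + fo f n) - 1 * (FE b (fun k => V k t) n + fo f n)) (uIcc t s) x := by
    intro x hx
    exact ((hVd n (by omega) x (hsub hx)).mono hsub).sub
      ((hasDerivWithinAt_id x _).mul_const _)
  have hbd : ∀ x ∈ uIcc t s, ‖(FE b (fun k => V k x) n + fo f n) -
      1 * (FE b (fun k => V k t) n + fo f n)‖ ≤ p4C b f M n * |s - t| := by
    intro x hx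
    have e1 : (FE b (fun k => V k x) n + fo f n) - 1 * (FE b (fun k => V k t) n + fo f n) =
        FE b (fun k => V k x) n - FE b (fun k => V k t) n := by ring
    rw [e1, Real.norm_eq_abs, ← rhs_FE b hb, ← rhs_FE b hb]
    have hx' := hsub hx
    have h1 := rhs_lip (fun n => b ^ (3 * n)) (fun _ => 0) (fun n => by positivity)
      (fun _ => le_rfl) (1 / b ^ 3) M (by positivity) (fun k => V k x) (fun k => V k t) n
      (p4L b f M) |x - t|
      (fun k => (hVb k x hx').1) (fun k => (hVb k x hx').2)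
      (fun k => (hVb k t ht).1) (fun k => (hVb k t ht).2)
      (fun k hk => hlip k (by omega) x hx' t ht) (p4L_nonneg hb hf hM) (abs_nonneg _)
    refine h1.trans (mul_le_mul_of_nonneg_left ?_ (p4C_nonneg hb hf hM n))
    exact abs_sub_left_of_mem_uIcc hx
  have := (convex_uIcc t s).norm_image_sub_le_of_norm_hasDerivWithin_le hder hbd
    left_mem_uIcc right_mem_uIcc
  simp only [Real.norm_eq_abs] at this
  calc |V n s - V n t - (s - t) * (FE b (fun k => V k t) n + fo f n)|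
      = |V n s - s * (FE b (fun k => V k t) n + fo f n) -
          (V n t - t * (FE b (fun k => V k t) n + fo f n))| := by
        congr 1; ring
    _ ≤ _ := this

theorem p4 : S_P4 := by
  intro b hb f hf S hS u0 V hV0 hVb hVd
  classical
  let 𝒰 : Ultrafilter ℕ := hyperfilter ℕ
  have hev : ∀ m : ℕ, ∀ᶠ N in (𝒰 : Filter ℕ), m ≤ N := fun m => by
    have : (𝒰 : Filter ℕ) ≤ atTop := by
      rw [← Nat.cofinite_eq_atTop]; exact hyperfilter_le_cofinite
    exact this (eventually_ge_atTop m)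
  have hevr : ∀ r : ℝ, ∀ᶠ N : ℕ in (𝒰 : Filter ℕ), r ≤ (N:ℝ) + 1 := fun r => by
    filter_upwards [hev ⌈r⌉₊] with N hN
    have := Nat.le_ceil r
    have h2 : ((⌈r⌉₊ : ℕ) : ℝ) ≤ N := by exact_mod_cast hN
    linarith
  have hlim : ∀ n t, 0 ≤ t → ∃ x ∈ Icc (0:ℝ) (S + f * t), Tendsto (fun N => V N n t) 𝒰 (𝓝 x) := by
    intro n t ht
    have h1 : ∀ᶠ N in (𝒰 : Filter ℕ), V N n t ∈ Icc (0:ℝ) (S + f * t) := by
      filter_upwards [hevr t] with N hN
      exact hVb N n t ⟨ht, hN⟩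
    have h2 : ((𝒰.map (fun N => V N n t) : Ultrafilter ℝ) : Filter ℝ) ≤
        𝓟 (Icc (0:ℝ) (S + f * t)) := by
      rw [le_principal_iff]; exact h1
    obtain ⟨x, hx, hx2⟩ := (isCompact_Icc (a := (0:ℝ)) (b := S + f * t)).ultrafilter_le_nhds _ h2
    exact ⟨x, hx, hx2⟩
  choose! U hUI hUt using hlim
  have hrhs : ∀ n t, 0 ≤ t → Tendsto (fun N => FE b (fun k => V N k t) n + fo f n) 𝒰
      (𝓝 (FE b (fun k => U k t) n + fo f n)) := by
    intro n t ht
    refine Tendsto.add_const _ ?_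
    unfold FE
    by_cases h : n = 0
    · simp only [h, if_true]
      exact (tendsto_const_nhds).sub (((hUt 0 t ht).const_mul _).mul (hUt _ t ht))
    · simp only [h, if_false]
      exact (((hUt (n-1) t ht).pow 2).const_mul _).sub
        (((hUt n t ht).const_mul _).mul (hUt _ t ht))
  have hquadU : ∀ T : ℝ, 0 ≤ T → ∀ n, ∀ s ∈ Icc (0:ℝ) T, ∀ t ∈ Icc (0:ℝ) T,
      |U n s - U n t - (s - t) * (FE b (fun k => U k t) n + fo f n)| ≤
        p4C b f (S + f * T) n * |s - t| * |s - t| := by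
    intro T hT n s hs t ht
    have h1 : Tendsto (fun N => |V N n s - V N n t -
        (s - t) * (FE b (fun k => V N k t) n + fo f n)|) 𝒰
        (𝓝 |U n s - U n t - (s - t) * (FE b (fun k => U k t) n + fo f n)|) :=
      (((hUt n s hs.1).sub (hUt n t ht.1)).sub ((hrhs n t ht.1).const_mul _)).abs
    apply le_of_tendsto h1
    filter_upwards [hev (n+1), hevr T] with N h2 h3
    have hsub : Icc (0:ℝ) T ⊆ Icc (0:ℝ) ((N:ℝ)+1) := Icc_subset_Icc le_rfl h3
    refine p4_quad hb hf (by positivity) T n N h2 (V N) (fun k t ht => ?_)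
      (fun k hk t ht => (hVd N k hk t (hsub ht)).mono hsub) s hs t ht
    refine ⟨(hVb N k t (hsub ht)).1, (hVb N k t (hsub ht)).2.trans ?_⟩
    have := mul_le_mul_of_nonneg_left ht.2 hf
    linarith
  refine ⟨U, ?_, fun n t ht => hUI n t ht, ?_, ?_⟩
  · intro n
    apply tendsto_nhds_unique (hUt n 0 le_rfl)
    apply tendsto_const_nhds.congr'
    filter_upwards [hev n] with N hN
    exact (hV0 N n hN).symm
  · intro n t ht
    rw [hasDerivWithinAt_iff_isLittleO, Asymptotics.isLittleO_iff]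
    intro c hc
    have hC0 := p4C_nonneg hb hf (by positivity : 0 ≤ S + f * (t + 1)) n
    set C := p4C b f (S + f * (t + 1)) n with hC
    have hpos : 0 < min 1 (c / (C + 1)) := by positivity
    have h1 : ∀ᶠ s in 𝓝[Ici 0] t, |s - t| < min 1 (c / (C + 1)) := by
      apply mem_nhdsWithin_of_mem_nhds
      have := Metric.ball_mem_nhds t hpos
      filter_upwards [this] with s hs
      rwa [Metric.mem_ball, Real.dist_eq] at hs
    filter_upwards [h1, self_mem_nhdsWithin] with s hs hs0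
    rw [Real.norm_eq_abs, Real.norm_eq_abs, smul_eq_mul]
    have hs1 : |s - t| < 1 := hs.trans_le (min_le_left _ _)
    have hs2 : |s - t| < c / (C + 1) := hs.trans_le (min_le_right _ _)
    refine (hquadU (t + 1) (by linarith) n s ⟨hs0, ?_⟩ t ⟨ht, by linarith⟩).trans ?_
    · have := (abs_lt.1 hs1).2
      linarith
    apply mul_le_mul_of_nonneg_right _ (abs_nonneg _)
    have h2 : (C + 1) * |s - t| ≤ c := by
      calc (C + 1) * |s - t| ≤ (C + 1) * (c / (C + 1)) := by gcongr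
        _ = c := by field_simp
    nlinarith [abs_nonneg (s - t)]
  · intro n t ht c hc
    apply le_of_tendsto (hUt n t ht)
    have h1 : (𝒰 : Filter ℕ) ≤ atTop := by
      rw [← Nat.cofinite_eq_atTop]; exact hyperfilter_le_cofinite
    exact h1 hc

end Pool.Agent.H306.DF
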