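import Pool.Agent.H306.DF.Stm
import Pool.Agent.H219.Dz.Smooth

/-! Existence with bounds for the forced model. -/

namespace Pool.Agent.H306.DF

open Set Filter Topology Pool.Agent.H219.Dy Pool.Agent.H219.Dz

theorem p5 : S_P5 := by
  intro hP2 hT0 hP3 hP4 b hb hb3
  obtain ⟨r, hr1, hr2, hR, hTilt⟩ := hT0 b hb hb3
  have hb1' : 1 < b := by
    by_contra hcon
    push Not at hcon
    have : b ^ 2 ≤ 1 ^ 2 := by gcongr
    linarith
  have hb1 : 1 ≤ b := hb1'.le
  have hbn : ∀ n : ℕ, (0:ℝ) < b ^ n := fun n => by positivity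
  set K : ℝ := 10 * b ^ 2 with hKd
  have hK : 0 < K := by positivity
  refine ⟨max K ((40000 * b ^ 4) ^ 3), lt_max_of_lt_left hK, ?_⟩
  intro f hf a ha S hS haS
  have hne : ∀ N : ℕ, (Finset.range (N+3)).Nonempty := fun N => ⟨0, by simp⟩
  let m0 : ℕ → ℝ := fun N =>
    (Finset.range (N+3)).sup' (hne N) (fun n => b ^ n * a n) + 1 / ((N:ℝ) + 1)
  have hm : ∀ N n, n ≤ N + 2 → b ^ n * a n ≤ m0 N := by
    intro N n hn
    have h1 := Finset.le_sup' (f := fun n => b ^ n * a n) (Finset.mem_range.2 (by omega : n < N + 3))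
    have h2 : (0:ℝ) < 1 / ((N:ℝ) + 1) := by positivity
    simp only [m0]
    linarith
  have hm0 : ∀ N, 0 < m0 N := by
    intro N
    have h1 := Finset.le_sup' (f := fun n => b ^ n * a n) (Finset.mem_range.2 (by omega : 0 < N + 3))
    have h2 : (0:ℝ) < 1 / ((N:ℝ) + 1) := by positivity
    have h3 := ha 0
    simp only [m0]
    simp only [pow_zero, one_mul] at h1
    linarith
  have hmA : ∀ A : ℝ, (∀ n : ℕ, b ^ n * a n ≤ A) → ∀ N, m0 N ≤ A + 1 / ((N:ℝ) + 1) := by
    intro A hA N
    have h1 := Finset.sup'_le (hne N) (fun n => b ^ n * a n)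
      (fun n _ => hA n)
    simp only [m0]
    linarith
  have hfam := fun N : ℕ => hP3 hP2 b hb1 r hr1 hr2 hR hTilt f hf a ha S hS haS N (m0 N) (hm0 N)
    (hm N)
  choose V hV0 hVb hVK hVQ hVd using hfam
  obtain ⟨X, hX0, hXb, hXd, hXc⟩ := hP4 b hb f hf S hS.le a V
    (fun N n hn => hV0 N n (by omega)) (fun N n t ht => hVb N n t ht)
    (fun N n hn t ht => hVd N n (by omega) t ht)
  refine ⟨X, hXd, hX0, fun n t ht => (hXb n t ht).1, ?_, ?_⟩
  · intro n t ht
    have hft : 0 ≤ f * t := mul_nonneg hf ht.le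
    have hS' : 0 < S + f * t := by linarith
    have h1 : ∀ m : ℕ, b ^ n * X n t ≤
        5 * b ^ (m+2) * (S + f * t) + 20000 * b / b ^ (2 * m) * (1 / t) := by
      intro m
      have h1 : X n t ≤
          (5 * b ^ (m+2) * (S + f * t) + 20000 * b / b ^ (2 * m) * (1 / t)) / b ^ n := by
        apply hXc n t ht.le
        filter_upwards [eventually_ge_atTop n, eventually_ge_atTop m, eventually_ge_atTop ⌈t⌉₊]
          with N h1 h1' h2
        rw [le_div_iff₀ (hbn n), mul_comm]
        refine hVQ N m (by omega) n (by omega) t ⟨ht.le, ?_⟩ ht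
        have h3 := Nat.le_ceil t
        have h4 : ((⌈t⌉₊ : ℕ) : ℝ) ≤ N := by exact_mod_cast h2
        linarith
      rwa [le_div_iff₀ (hbn n), mul_comm] at h1
    have h2 := opt_shell3 b hb1' (S + f * t) t (b ^ n * X n t) hS' ht
      (mul_nonneg (hbn n).le (hXb n t ht.le).1) h1
    refine h2.trans ?_
    have h3 : 0 ≤ (S + f * t) ^ 2 * (S + f * t + 1 / t) := by positivity
    exact mul_le_mul_of_nonneg_right (le_max_right _ _) h3
  · intro A hA n t ht
    have hft : 0 ≤ f * t := mul_nonneg hf ht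
    have hA0 : 0 ≤ A := le_trans (by have := ha 0; positivity) (hA 0)
    have h0 : b ^ n * X n t ≤ K * (A + f * t) := by
      apply le_of_forall_pos_le_add
      intro δ hδ
      have h1 : X n t ≤ (K * (A + f * t) + δ) / b ^ n := by
        apply hXc n t ht
        obtain ⟨N0, hN0⟩ := exists_nat_gt (K / δ)
        filter_upwards [eventually_ge_atTop N0, eventually_ge_atTop ⌈t⌉₊] with N h1 h2
        rw [le_div_iff₀ (hbn n), mul_comm]
        have h3 := Nat.le_ceil t
        have h4 : ((⌈t⌉₊ : ℕ) : ℝ) ≤ N := by exact_mod_cast h2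
        have h5 := hVK N n t ⟨ht, by linarith⟩
        have h6 := hmA A hA N
        have h7 : K * (m0 N + f * t) ≤ K * (A + 1 / ((N:ℝ) + 1) + f * t) :=
          mul_le_mul_of_nonneg_left (by linarith) hK.le
        have h8 : (N0:ℝ) ≤ N := by exact_mod_cast h1
        have h9 : K / δ < (N:ℝ) + 1 := by linarith
        have h10 : K * (1 / ((N:ℝ) + 1)) ≤ δ := by
          rw [mul_one_div, div_le_iff₀ (by positivity)]
          rw [div_lt_iff₀ hδ] at h9
          linarith
        have h11 : K * (A + 1 / ((N:ℝ) + 1) + f * t) =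
            K * (A + f * t) + K * (1 / ((N:ℝ) + 1)) := by ring
        linarith
      rwa [le_div_iff₀ (hbn n), mul_comm] at h1
    exact h0.trans (mul_le_mul_of_nonneg_right (le_max_left _ _) (by linarith))

end Pool.Agent.H306.DF
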