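import Pool.Agent.H306.DF.Stm

/-! Positivity, growth of the energy and shift for the forced inviscid dyadic model. -/

set_option maxHeartbeats 4000000

namespace Pool.Agent.H306.DF

open Set Filter Topology Pool.Agent.H219.Dy Pool.Agent.H219.Dz

theorem p6fo {f : ℝ} (hf : 0 ≤ f) (n : ℕ) : 0 ≤ fo f n := by
  unfold fo
  split_ifs
  · exact hf
  · exact le_refl _

theorem IsF.p6deriv {b f : ℝ} {X : ℕ → ℝ → ℝ} (hX : IsF b f X) (T : ℝ) (n : ℕ) (t : ℝ)
    (ht : t ∈ Icc (0:ℝ) T) :
    HasDerivWithinAt (X n) (FE b (fun k => X k t) n + fo f n) (Icc 0 T) t :=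
  (hX n t ht.1).mono (fun _ hy => hy.1)

theorem IsF.p6nonneg {b f : ℝ} (hb : 0 ≤ b) (hf : 0 ≤ f) {X : ℕ → ℝ → ℝ} (hX : IsF b f X)
    (h0 : ∀ n, 0 ≤ X n 0) : ∀ n t, 0 ≤ t → 0 ≤ X n t := by
  intro n T hT
  have hc : ContinuousOn (X (n+1)) (Icc 0 T) := fun t ht =>
    ((hX (n+1) t ht.1).continuousWithinAt).mono (fun x hx => hx.1)
  obtain ⟨B, hB⟩ := isCompact_Icc.exists_bound_of_continuousOn hc
  set L : ℝ := b ^ (3 * n) * |B| + 1 with hL
  apply le_of_forall_pos_le_add
  intro ε hε
  set η := ε / Real.exp (L * T) with hηd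
  have hη : 0 < η := by positivity
  have key := barrier (ι := Unit) T (fun _ x => X n x + η * Real.exp (L * x))
    (fun _ x => (FE b (fun k => X k x) n + fo f n) + η * (Real.exp (L * x) * (L * 1)))
    (fun _ => by
      have := h0 n
      simp only [mul_zero, Real.exp_zero, mul_one]; linarith)
    (fun _ x hx => by
      have h1 : HasDerivWithinAt (fun x => η * Real.exp (L * x)) (η * (Real.exp (L * x) * (L * 1)))
          (Icc 0 T) x :=
        (((hasDerivWithinAt_id x (Icc (0:ℝ) T)).const_mul L).exp).const_mul η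
      exact (hX.p6deriv T n x hx).add h1)
    (fun x hx _ _ hz => by
      have hXn : X n x = - (η * Real.exp (L * x)) := by linarith
      have hx' : x ∈ Icc (0:ℝ) T := ⟨hx.1.le, hx.2⟩
      have hbd := hB x hx'
      rw [Real.norm_eq_abs] at hbd
      have hb2 : -|B| ≤ X (n+1) x := by
        have := neg_abs_le (X (n+1) x)
        have := le_abs_self B
        linarith
      have hp : 0 < η * Real.exp (L * x) := by positivity
      have hfo := p6fo hf n
      have hsrc : 0 ≤ (if n = 0 then (0:ℝ) else b ^ (3 * (n - 1)) * X (n - 1) x ^ 2) := by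
        split_ifs
        · exact le_refl _
        · positivity
      have h2 : (0:ℝ) ≤ b ^ (3 * n) := by positivity
      have hsum : 0 < b ^ (3 * n) * X (n+1) x + L := by
        have q2 := mul_le_mul_of_nonneg_left hb2 h2
        rw [hL]
        nlinarith
      have e : (FE b (fun k => X k x) n + fo f n) + η * (Real.exp (L * x) * (L * 1))
          = (if n = 0 then (0:ℝ) else b ^ (3 * (n - 1)) * X (n - 1) x ^ 2) + fo f n
            + (η * Real.exp (L * x)) * (b ^ (3 * n) * X (n+1) x + L) := by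
        unfold FE
        simp only
        rw [hXn]; ring
      rw [e]
      have := mul_pos hp hsum
      linarith) T ⟨hT, le_refl _⟩ ()
  have e : η * Real.exp (L * T) = ε := by rw [hηd]; field_simp
  linarith

theorem p6force (f : ℝ) (x : ℕ → ℝ) (N : ℕ) :
    ∑ n ∈ Finset.range (N+1), 2 * x n * fo f n = 2 * f * x 0 := by
  rw [Finset.sum_range_succ', Finset.sum_eq_zero]
  · unfold fo; simp; ring
  · intro n _
    unfold fo; simp

theorem IsF.p6ENderiv {b f : ℝ} {X : ℕ → ℝ → ℝ} (hX : IsF b f X) (N : ℕ) (t : ℝ) (ht : 0 ≤ t) :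
    HasDerivWithinAt (EN X N)
      (- 2 * (b ^ (3 * N) * X N t ^ 2 * X (N+1) t) + 2 * f * X 0 t) (Ici 0) t := by
  have h : HasDerivWithinAt (EN X N)
      (∑ n ∈ Finset.range (N+1), 2 * X n t * (FE b (fun k => X k t) n + fo f n)) (Ici 0) t := by
    unfold EN
    apply HasDerivWithinAt.fun_sum
    intro n _
    have := (hX n t ht).pow 2
    refine this.congr_deriv ?_
    norm_num
  have e : ∑ n ∈ Finset.range (N+1), 2 * X n t * (FE b (fun k => X k t) n + fo f n)
      = - 2 * (b ^ (3 * N) * X N t ^ 2 * X (N+1) t) + 2 * f * X 0 t := by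
    rw [← energyE_id b (fun k => X k t) N, ← p6force f (fun k => X k t) N, ← Finset.sum_add_distrib]
    apply Finset.sum_congr rfl
    intro n _
    ring
  rw [e] at h
  exact h

theorem IsF.p6ENle {b f : ℝ} (hb : 0 ≤ b) (hf : 0 ≤ f) {X : ℕ → ℝ → ℝ} (hX : IsF b f X)
    (h0 : ∀ n, 0 ≤ X n 0) (S : ℝ) (hS : 0 ≤ S) (hE : ∀ N, EN X N 0 ≤ S ^ 2) (N : ℕ) (T : ℝ)
    (hT : 0 ≤ T) : EN X N T ≤ (S + f * T) ^ 2 := by
  have hnn := hX.p6nonneg hb hf h0
  have hEnn : ∀ t, 0 ≤ EN X N t := fun t => by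
    unfold EN
    exact Finset.sum_nonneg (fun n _ => by positivity)
  have hX0 : ∀ t, X 0 t ^ 2 ≤ EN X N t := fun t => by
    unfold EN
    exact Finset.single_le_sum (f := fun n => X n t ^ 2) (fun n _ => by positivity)
      (Finset.mem_range.2 (Nat.succ_pos N))
  have hfT : 0 ≤ f * T := mul_nonneg hf hT
  -- the regularised estimate
  have hη : ∀ η : ℝ, 0 < η → EN X N T ≤ (S + f * T + η) ^ 2 := by
    intro η hη
    have hpos : ∀ t, 0 < EN X N t + η ^ 2 := fun t => by
      have := hEnn t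
      positivity
    have key := le_of_deriv_le (T := T) (c := f) (f := fun t => Real.sqrt (EN X N t + η ^ 2))
      (f' := fun t => (- 2 * (b ^ (3 * N) * X N t ^ 2 * X (N+1) t) + 2 * f * X 0 t) /
        (2 * Real.sqrt (EN X N t + η ^ 2)))
      (fun t ht => by
        have h1 := ((hX.p6ENderiv N t ht.1).mono (fun y (hy : y ∈ Icc (0:ℝ) T) => hy.1)).add_const (η ^ 2)
        exact h1.sqrt (hpos t).ne')
      (fun t ht => by
        have hs : 0 < Real.sqrt (EN X N t + η ^ 2) := Real.sqrt_pos.2 (hpos t)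
        rw [div_le_iff₀ (by positivity)]
        have h1 : 0 ≤ b ^ (3 * N) * X N t ^ 2 * X (N+1) t := by
          have := hnn (N+1) t ht.1
          positivity
        have h2 : X 0 t ≤ Real.sqrt (EN X N t + η ^ 2) := by
          apply Real.le_sqrt_of_sq_le
          have := hX0 t
          have := sq_nonneg η
          linarith
        have h3 := mul_le_mul_of_nonneg_left h2 hf
        linarith) T ⟨hT, le_refl _⟩
    have h4 : Real.sqrt (EN X N 0 + η ^ 2) ≤ S + η := by
      apply Real.sqrt_le_iff.2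
      refine ⟨by positivity, ?_⟩
      have := hE N
      have := mul_nonneg hS hη.le
      nlinarith
    have h5 : Real.sqrt (EN X N T + η ^ 2) ≤ S + f * T + η := by linarith
    have h6 := Real.sqrt_le_iff.1 h5
    have := sq_nonneg η
    linarith [h6.2]
  -- limit
  have hlim : Tendsto (fun η : ℝ => (S + f * T + η) ^ 2) (𝓝[>] 0) (𝓝 ((S + f * T + 0) ^ 2)) := by
    apply Tendsto.mono_left _ nhdsWithin_le_nhds
    exact (Continuous.tendsto (by fun_prop) 0)
  rw [add_zero] at hlim
  refine ge_of_tendsto hlim ?_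
  filter_upwards [self_mem_nhdsWithin] with η hη'
  exact hη η hη'

theorem IsF.p6shift {b f : ℝ} {X : ℕ → ℝ → ℝ} (hX : IsF b f X) (t0 : ℝ) (ht0 : 0 ≤ t0) :
    IsF b f (fun n t => X n (t0 + t)) := by
  intro n t ht
  have h1 := hX n (t0 + t) (by linarith)
  have h2 : HasDerivWithinAt (fun s => t0 + s) 1 (Ici 0) t := (hasDerivWithinAt_id t _).const_add t0
  have h3 := HasDerivWithinAt.comp t h1 h2 (fun s hs => by
    have : (0:ℝ) ≤ s := hs
    exact Set.mem_Ici.2 (by linarith))
  rw [mul_one] at h3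
  exact h3

theorem p6 : S_P6 := by
  intro b hb f hf X hX h0
  exact ⟨hX.p6nonneg hb hf h0, fun S hS hE N t ht => hX.p6ENle hb hf h0 S hS hE N t ht,
    fun s hs => hX.p6shift s hs⟩

end Pool.Agent.H306.DF
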