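import Pool.Agent.H306.DF.Stm

/-! P7: uniqueness for the forced model (adapted from Dy/EulerV.lean). -/

set_option maxHeartbeats 4000000

namespace Pool.Agent.H306.DF

open Set Filter Topology Pool.Agent.H219.Dy Pool.Agent.H219.Dz

theorem p7_deriv {b f : ℝ} {X : ℕ → ℝ → ℝ} (hX : IsF b f X) (T : ℝ) (n : ℕ) (t : ℝ)
    (ht : t ∈ Icc (0:ℝ) T) :
    HasDerivWithinAt (X n) (FE b (fun k => X k t) n + fo f n) (Icc 0 T) t :=
  (hX n t ht.1).mono (fun _ hy => hy.1)

theorem p7_force (f : ℝ) (x : ℕ → ℝ) (N : ℕ) :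
    ∑ n ∈ Finset.range (N+1), 2 * x n * fo f n = 2 * f * x 0 := by
  rw [Finset.sum_eq_single 0]
  · unfold fo
    simp
    ring
  · intro n _ hn
    unfold fo
    rw [if_neg hn, mul_zero]
  · intro h
    exact absurd (Finset.mem_range.2 (Nat.succ_pos N)) h

theorem p7_EN {b f : ℝ} {X : ℕ → ℝ → ℝ} (hX : IsF b f X) (N : ℕ) (t : ℝ) (ht : 0 ≤ t) :
    HasDerivWithinAt (EN X N) (- 2 * (b ^ (3 * N) * X N t ^ 2 * X (N+1) t) + 2 * f * X 0 t)
      (Ici 0) t := by
  have h : HasDerivWithinAt (EN X N)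
      (∑ n ∈ Finset.range (N+1), 2 * X n t * (FE b (fun k => X k t) n + fo f n)) (Ici 0) t := by
    unfold EN
    apply HasDerivWithinAt.fun_sum
    intro n _
    have := (hX n t ht).pow 2
    refine this.congr_deriv ?_
    norm_num
  have e : ∑ n ∈ Finset.range (N+1), 2 * X n t * (FE b (fun k => X k t) n + fo f n) =
      - 2 * (b ^ (3 * N) * X N t ^ 2 * X (N+1) t) + 2 * f * X 0 t := by
    rw [← energyE_id b (fun k => X k t) N, ← p7_force f (fun k => X k t) N,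
      ← Finset.sum_add_distrib]
    exact Finset.sum_congr rfl fun n _ => by ring
  rw [e] at h
  exact h

/-- the time integral of `b^(3N) X_N³` is bounded, in the form of a differential inequality -/
theorem p7_cube {b : ℝ} (hb : 1 ≤ b) {f : ℝ} (hf : 0 ≤ f) {X : ℕ → ℝ → ℝ} (hX : IsF b f X)
    (hnn : ∀ n t, 0 ≤ t → 0 ≤ X n t)
    (S : ℝ) (hS0 : 0 ≤ S) (T : ℝ) (hT : 0 ≤ T)
    (hE : ∀ N, ∀ t ∈ Icc (0:ℝ) T, EN X N t ≤ S ^ 2) : ∃ D : ℝ, ∀ (K N : ℕ),
      ∃ g g' : ℝ → ℝ, (∀ t ∈ Icc (0:ℝ) T, HasDerivWithinAt g (g' t) (Icc 0 T) t) ∧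
        (∀ t ∈ Icc (0:ℝ) T, b ^ (3 * N) * X N t ^ 3 ≤ g' t + b ^ (3 * N) * S ^ 3 * (1/2) ^ K) ∧
        (∀ t ∈ Icc (0:ℝ) T, g t - g 0 ≤ D) := by
  have hb0 : 0 < b := by linarith
  have h0T : (0:ℝ) ∈ Icc (0:ℝ) T := ⟨le_rfl, hT⟩
  have h0 : ∀ n, 0 ≤ X n 0 := fun n => hnn n 0 le_rfl
  have hE0 : ∀ N t, 0 ≤ EN X N t := fun N t => by unfold EN; positivity
  have hXS : ∀ n, ∀ t ∈ Icc (0:ℝ) T, X n t ≤ S := by
    intro n t ht
    have h1 : X n t ^ 2 ≤ EN X n t :=
      Finset.single_le_sum (f := fun k => X k t ^ 2) (fun k _ => by positivity)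
        (Finset.mem_range.2 (Nat.lt_succ_self n))
    exact (le_abs_self _).trans (abs_le_of_sq_le_sq (h1.trans (hE n t ht)) hS0)
  set κ : ℝ := 1 / (4 * b ^ 6) with hκd
  have hκ : 0 < κ := by positivity
  have hb3 : 1 ≤ b ^ 3 := one_le_pow₀ hb
  have hb6 : b ^ 6 = b ^ 3 * b ^ 3 := by ring
  have hκb6 : κ * b ^ 6 = 1 / 4 := by rw [hκd]; field_simp
  have hκb : κ * b ^ 3 ≤ 1 := by
    have h1 : κ * b ^ 3 ≤ κ * b ^ 6 := by
      apply mul_le_mul_of_nonneg_left _ hκ.le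
      rw [hb6]; nlinarith
    linarith
  have hκ4 : κ ≤ 1 / 4 := by
    have h1 : κ * 1 ≤ κ * b ^ 6 := by
      apply mul_le_mul_of_nonneg_left _ hκ.le
      rw [hb6]; nlinarith
    linarith
  set D0 : ℝ := 2 * S ^ 2 + 1 / κ * S ^ 2 + 1 / κ * (2 * f * S) * T with hD0
  have hD00 : 0 ≤ D0 := by positivity
  refine ⟨2 * D0, ?_⟩
  intro K
  induction K with
  | zero =>
    intro N
    refine ⟨fun _ => 0, fun _ => 0, fun t _ => hasDerivWithinAt_const _ _ _, fun t ht => ?_,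
      fun t _ => by simp; exact hD00⟩
    have h1 := hnn N t ht.1
    have h2 : X N t ^ 3 ≤ S ^ 3 := pow_le_pow_left₀ h1 (hXS N t ht) 3
    have h3 : b ^ (3 * N) * X N t ^ 3 ≤ b ^ (3 * N) * S ^ 3 := mul_le_mul_of_nonneg_left h2 (by positivity)
    simp only [pow_zero, mul_one, zero_add]
    exact h3
  | succ K ih =>
    intro N
    obtain ⟨g1, g1', d1, i1, o1⟩ := ih (N+1)
    obtain ⟨g2, g2', d2, i2, o2⟩ := ih (N+2)
    refine ⟨fun t => 2 * (X N t * X (N+1) t) - 1 / (2 * κ) * (EN X N t + EN X (N+1) t)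
        + κ * (g1 t + g2 t) + 1 / κ * (2 * f * S) * t,
      fun t => 2 * ((FE b (fun k => X k t) N + fo f N) * X (N+1) t
          + X N t * (FE b (fun k => X k t) (N+1) + fo f (N+1)))
        - 1 / (2 * κ) * ((- 2 * (b ^ (3 * N) * X N t ^ 2 * X (N+1) t) + 2 * f * X 0 t)
          + (- 2 * (b ^ (3 * (N+1)) * X (N+1) t ^ 2 * X (N+1+1) t) + 2 * f * X 0 t))
        + κ * (g1' t + g2' t) + 1 / κ * (2 * f * S) * 1, ?_, ?_, ?_⟩
    · intro t ht
      have hsub : Icc (0:ℝ) T ⊆ Ici 0 := fun y hy => hy.1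
      have c1 := ((p7_deriv hX T N t ht).mul (p7_deriv hX T (N+1) t ht)).const_mul 2
      have c2 := (((p7_EN hX N t ht.1).mono hsub).add
        ((p7_EN hX (N+1) t ht.1).mono hsub)).const_mul (1 / (2 * κ))
      have c3 := ((d1 t ht).add (d2 t ht)).const_mul κ
      have c4 := (hasDerivWithinAt_id t (Icc (0:ℝ) T)).const_mul (1 / κ * (2 * f * S))
      exact ((c1.sub c2).add c3).add c4
    · intro t ht
      have x0 := hnn N t ht.1
      have x1 := hnn (N+1) t ht.1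
      have x2 := hnn (N+2) t ht.1
      have hfo : 0 ≤ fo f N := by
        unfold fo
        split_ifs
        · exact hf
        · exact le_refl _
      have hfo1 : fo f (N+1) = 0 := by
        unfold fo
        simp
      have hsrc0 : 0 ≤ (if N = 0 then (0:ℝ) else b ^ (3 * (N - 1)) * X (N - 1) t ^ 2) := by
        split_ifs
        · exact le_refl _
        · positivity
      have hsrc : 0 ≤ (if N = 0 then (0:ℝ) else b ^ (3 * (N - 1)) * X (N - 1) t ^ 2) + fo f N :=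
        add_nonneg hsrc0 hfo
      have hX0 : 1 / κ * (2 * f * X 0 t) ≤ 1 / κ * (2 * f * S) := by
        have := hXS 0 t ht
        gcongr
      have hp := cube_point b hb κ hκ hκb N _ (X N t) (X (N+1) t) (X (N+2) t) hsrc x0 x1 x2
      have j1 := mul_le_mul_of_nonneg_left (i1 t ht) hκ.le
      have j2 := mul_le_mul_of_nonneg_left (i2 t ht) hκ.le
      have eF : FE b (fun k => X k t) N = (if N = 0 then (0:ℝ) else b ^ (3 * (N - 1)) * X (N - 1) t ^ 2)
        - b ^ (3 * N) * X N t * X (N+1) t := by unfold FE; rfl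
      have eF1 : FE b (fun k => X k t) (N+1) = b ^ (3 * N) * X N t ^ 2
        - b ^ (3 * (N+1)) * X (N+1) t * X (N+2) t := FE_succ b (fun k => X k t) N
      have ek : 1 / (2 * κ) * ((- 2 * (b ^ (3 * N) * X N t ^ 2 * X (N+1) t) + 2 * f * X 0 t)
          + (- 2 * (b ^ (3 * (N+1)) * X (N+1) t ^ 2 * X (N+2) t) + 2 * f * X 0 t))
          = - (1 / κ * (b ^ (3 * N) * X N t ^ 2 * X (N+1) t
            + b ^ (3 * (N+1)) * X (N+1) t ^ 2 * X (N+2) t)) + 1 / κ * (2 * f * X 0 t) := by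
        field_simp
        ring
      -- remainders
      have hrem : κ * (b ^ (3 * (N+1)) * S ^ 3 * (1/2) ^ K) + κ * (b ^ (3 * (N+2)) * S ^ 3 * (1/2) ^ K)
          ≤ b ^ (3 * N) * S ^ 3 * (1/2) ^ (K+1) := by
        have r1 : b ^ (3 * (N+1)) ≤ b ^ (3 * (N+2)) := pow_le_pow_right₀ hb (by omega)
        have r2 : κ * (b ^ (3 * (N+1)) * S ^ 3 * (1/2) ^ K) ≤ κ * (b ^ (3 * (N+2)) * S ^ 3 * (1/2) ^ K) := by
          gcongr
        have r3 : κ * (b ^ (3 * (N+2)) * S ^ 3 * (1/2) ^ K)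
            = (κ * b ^ 6) * (b ^ (3 * N) * S ^ 3 * (1/2) ^ K) := by
          rw [show 3 * (N+2) = 3 * N + 6 by ring, pow_add]; ring
        rw [hκb6] at r3
        have r4 : b ^ (3 * N) * S ^ 3 * (1/2) ^ (K+1) = 1 / 2 * (b ^ (3 * N) * S ^ 3 * (1/2) ^ K) := by
          rw [pow_succ]; ring
        rw [r4]
        linarith
      beta_reduce
      rw [eF, eF1, show N + 1 + 1 = N + 2 by ring, ek, hfo1]
      linarith
    · intro t ht
      have q1 := o1 t ht
      have q2 := o2 t ht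
      have q3 : κ * (g1 t - g1 0 + (g2 t - g2 0)) ≤ 1 / 4 * (2 * D0 + 2 * D0) := by
        have : κ * (g1 t - g1 0 + (g2 t - g2 0)) ≤ κ * (2 * D0 + 2 * D0) :=
          mul_le_mul_of_nonneg_left (by linarith) hκ.le
        have h5 : 0 ≤ 2 * D0 + 2 * D0 := by linarith
        have := mul_le_mul_of_nonneg_right hκ4 h5
        linarith
      have q4 : X N t * X (N+1) t ≤ S ^ 2 := by
        have := mul_le_mul (hXS N t ht) (hXS (N+1) t ht) (hnn (N+1) t ht.1) hS0
        nlinarith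
      have q5 : 0 ≤ X N 0 * X (N+1) 0 := mul_nonneg (h0 N) (h0 (N+1))
      have q6 : 1 / (2 * κ) * (EN X N 0 + EN X (N+1) 0) ≤ 1 / (2 * κ) * (S ^ 2 + S ^ 2) := by
        have := hE N 0 h0T; have := hE (N+1) 0 h0T
        gcongr
      have q7 : 0 ≤ 1 / (2 * κ) * (EN X N t + EN X (N+1) t) := by
        have := hE0 N t; have := hE0 (N+1) t; positivity
      have q8 : 1 / (2 * κ) * (S ^ 2 + S ^ 2) = 1 / κ * S ^ 2 := by field_simp; ring
      have q10 : 1 / κ * (2 * f * S) * t ≤ 1 / κ * (2 * f * S) * T :=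
        mul_le_mul_of_nonneg_left ht.2 (by positivity)
      have q9 : κ * (g1 t + g2 t) - κ * (g1 0 + g2 0) = κ * (g1 t - g1 0 + (g2 t - g2 0)) := by ring
      beta_reduce
      linarith

/-- uniqueness for all data of finite energy -/
theorem p7 : S_P7 := by
  intro h6 b hb f hf X Y hX hY h0 h S0 hS0' hS
  have hb0 : 0 < b := by linarith
  obtain ⟨hXn, hXE, -⟩ := h6 b hb0.le f hf X hX h0
  have h0Y : ∀ n, 0 ≤ Y n 0 := fun n => by rw [h]; exact h0 n
  obtain ⟨hYn, hYE, -⟩ := h6 b hb0.le f hf Y hY h0Y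
  have hSY : ∀ N, EN Y N 0 ≤ S0 ^ 2 := by
    intro N
    have h2 : EN Y N 0 = EN X N 0 := by unfold EN; simp only [h]
    rw [h2]; exact hS N
  intro n t ht
  obtain ⟨S, hSd⟩ : ∃ S : ℝ, S = S0 + f * t := ⟨_, rfl⟩
  have hft : 0 ≤ f * t := mul_nonneg hf ht
  have hS0 : 0 ≤ S := by rw [hSd]; linarith
  have hbd : ∀ x ∈ Icc (0:ℝ) t, (S0 + f * x) ^ 2 ≤ S ^ 2 := by
    intro x hx
    have h1 : f * x ≤ f * t := mul_le_mul_of_nonneg_left hx.2 hf
    have h2 : 0 ≤ f * x := mul_nonneg hf hx.1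
    rw [hSd]
    exact pow_le_pow_left₀ (by linarith) (by linarith) 2
  obtain ⟨D1, hD1⟩ := p7_cube hb hf hX hXn S hS0 t ht
    (fun N x hx => (hXE S0 hS0' hS N x hx.1).trans (hbd x hx))
  obtain ⟨D2, hD2⟩ := p7_cube hb hf hY hYn S hS0 t ht
    (fun N x hx => (hYE S0 hS0' hSY N x hx.1).trans (hbd x hx))
  have key : ∀ N, n ≤ N → (1/2:ℝ) ^ n * (X n t - Y n t) ^ 2 ≤ (1/2) ^ N * (2 * D1 + 2 * D2 + 4 * t) := by
    intro N hN
    -- choose K
    obtain ⟨K, hK⟩ : ∃ K : ℕ, b ^ (3 * (N+1)) * S ^ 3 * (1/2) ^ K ≤ 1 := by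
      have h1 : Tendsto (fun K : ℕ => b ^ (3 * (N+1)) * S ^ 3 * (1/2:ℝ) ^ K) atTop
          (𝓝 (b ^ (3 * (N+1)) * S ^ 3 * 0)) :=
        (tendsto_pow_atTop_nhds_zero_of_lt_one (by norm_num) (by norm_num)).const_mul _
      rw [mul_zero] at h1
      exact (h1.eventually (ge_mem_nhds one_pos)).exists
    have hK' : b ^ (3 * N) * S ^ 3 * (1/2) ^ K ≤ 1 := by
      refine le_trans ?_ hK
      have : b ^ (3 * N) ≤ b ^ (3 * (N+1)) := pow_le_pow_right₀ hb (by omega)
      gcongr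
    obtain ⟨g1, g1', d1, i1, o1⟩ := hD1 K N
    obtain ⟨g2, g2', d2, i2, o2⟩ := hD1 K (N+1)
    obtain ⟨g3, g3', d3, i3, o3⟩ := hD2 K N
    obtain ⟨g4, g4', d4, i4, o4⟩ := hD2 K (N+1)
    have hk := le_of_deriv_le (T := t) (c := (1/2) ^ N * 4)
      (f := fun t => ∑ k ∈ Finset.range (N+1), (1/2:ℝ) ^ k * (X k t - Y k t) ^ 2
        - (1/2) ^ N * (g1 t + g2 t + (g3 t + g4 t)))
      (f' := fun t => ∑ k ∈ Finset.range (N+1), (1/2:ℝ) ^ k * (2 * (X k t - Y k t) *
        (FE b (fun j => X j t) k - FE b (fun j => Y j t) k))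
        - (1/2) ^ N * (g1' t + g2' t + (g3' t + g4' t)))
      (fun x hx => by
        have d0 : HasDerivWithinAt (fun t => ∑ k ∈ Finset.range (N+1), (1/2:ℝ) ^ k * (X k t - Y k t) ^ 2)
            (∑ k ∈ Finset.range (N+1), (1/2:ℝ) ^ k * (2 * (X k x - Y k x) *
              (FE b (fun j => X j x) k - FE b (fun j => Y j x) k))) (Icc 0 t) x := by
          apply HasDerivWithinAt.fun_sum
          intro k _
          have := (((p7_deriv hX t k x hx).sub (p7_deriv hY t k x hx)).pow 2).const_mul ((1/2:ℝ) ^ k)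
          refine this.congr_deriv ?_
          simp
        exact d0.sub ((((d1 x hx).add (d2 x hx)).add ((d3 x hx).add (d4 x hx))).const_mul _))
      (fun x hx => by
        rw [diffE_id]
        have x1 := hXn N x hx.1
        have x2 := hXn (N+1) x hx.1
        have y1 := hYn N x hx.1
        have y2 := hYn (N+1) x hx.1
        have s2 : 0 ≤ ∑ k ∈ Finset.range (N+1), (1/2:ℝ) ^ k * (b ^ (3 * k) *
            ((X k x - Y k x) ^ 2 * (X (k+1) x + Y (k+1) x))) :=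
          Finset.sum_nonneg (fun k _ => by
            have := hXn (k+1) x hx.1
            have := hYn (k+1) x hx.1
            positivity)
        have cube : ∀ u v : ℝ, 0 ≤ u → 0 ≤ v → u ^ 2 * v ≤ u ^ 3 + v ^ 3 := by
          intro u v hu hv
          rcases le_total u v with h | h
          · have : u ^ 2 * v ≤ v ^ 2 * v := by gcongr
            have : 0 ≤ u ^ 3 := by positivity
            nlinarith
          · have : u ^ 2 * v ≤ u ^ 2 * u := by gcongr
            have : 0 ≤ v ^ 3 := by positivity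
            nlinarith
        have c1 := cube _ _ x1 y2
        have c2 := cube _ _ y1 x2
        have j1 := i1 x hx
        have j2 := i2 x hx
        have j3 := i3 x hx
        have j4 := i4 x hx
        have hB : (0:ℝ) < b ^ (3 * N) := by positivity
        have hB1 : b ^ (3 * N) ≤ b ^ (3 * (N+1)) := pow_le_pow_right₀ hb (by omega)
        have m1 : b ^ (3 * N) * X (N+1) x ^ 3 ≤ b ^ (3 * (N+1)) * X (N+1) x ^ 3 := by gcongr
        have m2 : b ^ (3 * N) * Y (N+1) x ^ 3 ≤ b ^ (3 * (N+1)) * Y (N+1) x ^ 3 := by gcongr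
        have hmain : b ^ (3 * N) * (-((X N x ^ 2 - Y N x ^ 2) * (X (N+1) x - Y (N+1) x)))
            ≤ g1' x + g2' x + (g3' x + g4' x) + 4 := by
          have w1 : 0 ≤ b ^ (3 * N) * (X N x ^ 2 * X (N+1) x) := by positivity
          have w2 : 0 ≤ b ^ (3 * N) * (Y N x ^ 2 * Y (N+1) x) := by positivity
          have v1 := mul_le_mul_of_nonneg_left c1 hB.le
          have v2 := mul_le_mul_of_nonneg_left c2 hB.le
          nlinarith
        have hfin := mul_le_mul_of_nonneg_left hmain (by positivity : (0:ℝ) ≤ (1/2) ^ N)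
        linarith) t ⟨ht, le_rfl⟩
    have hz : ∑ k ∈ Finset.range (N+1), (1/2:ℝ) ^ k * (X k 0 - Y k 0) ^ 2 = 0 := by
      apply Finset.sum_eq_zero
      intro k _
      rw [h k]; simp
    rw [hz] at hk
    have hs : (1/2:ℝ) ^ n * (X n t - Y n t) ^ 2 ≤ ∑ k ∈ Finset.range (N+1), (1/2:ℝ) ^ k * (X k t - Y k t) ^ 2 :=
      Finset.single_le_sum (f := fun k => (1/2:ℝ) ^ k * (X k t - Y k t) ^ 2)
        (fun k _ => by positivity) (Finset.mem_range.2 (by omega))
    have p1 := o1 t ⟨ht, le_rfl⟩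
    have p2 := o2 t ⟨ht, le_rfl⟩
    have p3 := o3 t ⟨ht, le_rfl⟩
    have p4 := o4 t ⟨ht, le_rfl⟩
    have p5 : (1/2:ℝ) ^ N * (g1 t - g1 0 + (g2 t - g2 0) + (g3 t - g3 0 + (g4 t - g4 0)))
        ≤ (1/2) ^ N * (2 * D1 + 2 * D2) := by
      apply mul_le_mul_of_nonneg_left _ (by positivity)
      linarith
    linarith
  have hlim : Tendsto (fun N : ℕ => (1/2:ℝ) ^ N * (2 * D1 + 2 * D2 + 4 * t)) atTop
      (𝓝 (0 * (2 * D1 + 2 * D2 + 4 * t))) :=
    (tendsto_pow_atTop_nhds_zero_of_lt_one (by norm_num) (by norm_num)).mul_const _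
  rw [zero_mul] at hlim
  have h1 : (1/2:ℝ) ^ n * (X n t - Y n t) ^ 2 ≤ 0 := by
    apply ge_of_tendsto hlim
    filter_upwards [eventually_ge_atTop n] with N hN
    exact key N hN
  have h2 : (0:ℝ) < (1/2) ^ n := by positivity
  have h3 : (X n t - Y n t) ^ 2 ≤ 0 := by
    by_contra hcon
    push Not at hcon
    have := mul_pos h2 hcon
    linarith
  have h4 : X n t - Y n t = 0 := by
    have := sq_nonneg (X n t - Y n t)
    exact pow_eq_zero_iff (n := 2) (by norm_num) |>.1 (le_antisymm h3 this)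
  linarith

end Pool.Agent.H306.DF
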