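import Pool.Agent.H306.DF.Stm
import Pool.Agent.H219.Dz.Tilt3
import Pool.Agent.H219.Dy.Tilt

/-! T0: the tilt property for all ratios (by helper864 for helper306). -/

set_option autoImplicit false

namespace Pool.Agent.H306.DF

open Set Filter Topology Pool.Agent.H219.Dy Pool.Agent.H219.Dz

theorem t0_aux {b : ℝ} (hb3 : 113/20 ≤ b ^ 3) : 317/100 ≤ b ^ 2 := by
  by_contra h
  push Not at h
  have h1 : (b ^ 2) ^ 3 < (317/100 : ℝ) ^ 3 := pow_lt_pow_left₀ h (sq_nonneg b) (by norm_num)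
  have h2 : (113/20 : ℝ) ^ 2 ≤ (b ^ 3) ^ 2 := pow_le_pow_left₀ (by norm_num) hb3 2
  have h3 : (b ^ 2) ^ 3 = (b ^ 3) ^ 2 := by ring
  rw [h3] at h1
  have h4 : (317/100 : ℝ) ^ 3 < (113/20 : ℝ) ^ 2 := by norm_num
  linarith

theorem t0 : S_T0 := by
  intro b _ hb3
  have hb2 := t0_aux hb3
  rcases le_total (b ^ 2) (366/100) with h | h
  · refine ⟨317/100, by norm_num, hb2, hb2, ?_⟩
    intro N κ hκ hκR ε hε0 hε1 hεR T M M' hM hMpos hM0 hM' U hpos hcl hs h0 hT hU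
    exact trunc_tilt3 (b ^ 2) hb2 h N κ hκ hκR ε hε0 hε1 hεR T M M' hM hMpos hM0 hM' U hpos hcl
      hs h0 hT hU
  · refine ⟨73/20, by norm_num, by linarith, hb2, ?_⟩
    intro N κ hκ hκR ε hε0 hε1 hεR T M M' hM hMpos hM0 hM' U hpos hcl hs h0 hT hU
    refine trunc_tilt (b ^ 2) (by linarith) N κ hκ hκR ε hε0 hε1 hεR T M M' hM hMpos hM0
      (fun n t ht => ?_) U hpos hcl (fun n hn => hs n (by omega)) h0 hT hU
    have h1 := hM' n t ht
    have h2 : 0 ≤ κ n * ε n * M t ^ 2 :=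
      mul_nonneg (mul_nonneg (hκ n).le (hε0 n).le) (sq_nonneg _)
    linarith

end Pool.Agent.H306.DF
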