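import Pool.Agent.H219.Dz.All
import Pool.Agent.H219.Dz.Decay

/-! The inviscid dyadic (Katz–Pavlović) model of the Euler equations, `kₙ = b^(3n)`,
with the Euler scaling for `b = λ^(5/6)`, for `b³ ≥ 113/20`, so for all `λ ≥ 2`: existence and uniqueness for all nonnegative
data of finite energy, instantaneous and lossless smoothing of every such solution into the space of
exactly Onsager's exponent (`sup bⁿ Xₙ`), at all positive times and with the rate `t^(-1/3)`,
universal bounds `sup bⁿ Xₙ ≤ K / t` and `E ≤ K / t²` which do not depend on the datum, propagation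
of the norm, total loss of energy, and sharpness of the exponent for every nonzero solution after
every time. -/

set_option maxHeartbeats 4000000

namespace Pool.Agent.H306.DF.Unf

open Set Filter Topology

/-- `X` solves on `[0, ∞)` the inviscid dyadic model
`Xₙ' = b^(3(n-1)) Xₙ₋₁² - b^(3n) Xₙ Xₙ₊₁`, `n = 0, 1, 2, …`, where `X₋₁ = 0`. -/
def Solves (b : ℝ) (X : ℕ → ℝ → ℝ) : Prop :=
  ∀ n : ℕ, ∀ t : ℝ, 0 ≤ t → HasDerivWithinAt (X n)
    ((if n = 0 then 0 else b ^ (3 * (n - 1)) * X (n - 1) t ^ 2)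
      - b ^ (3 * n) * X n t * X (n + 1) t) (Set.Ici 0) t

/-- the energy `Σ Xₙ(t)²` -/
noncomputable def energy (X : ℕ → ℝ → ℝ) (t : ℝ) : ℝ := ∑' n, X n t ^ 2

open Pool.Agent.H219.Dy Pool.Agent.H219.Dz in
theorem result (b : ℝ) (hb : 0 < b) (h5 : 113 / 20 ≤ b ^ 3) :
    ∃ K : ℝ, 0 < K ∧
      -- existence for every nonnegative datum of finite energy
      (∀ a : ℕ → ℝ, (∀ n, 0 ≤ a n) → Summable (fun n => a n ^ 2) →
        ∃ X : ℕ → ℝ → ℝ, Solves b X ∧ ∀ n, X n 0 = a n) ∧
      -- every solution with nonnegative data of finite energy has the following properties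
      ∀ X : ℕ → ℝ → ℝ, Solves b X → (∀ n, 0 ≤ X n 0) → Summable (fun n => X n 0 ^ 2) →
        -- it is the only solution with these data
        (∀ Y : ℕ → ℝ → ℝ, Solves b Y → (∀ n, Y n 0 = X n 0) → ∀ n t, 0 ≤ t → Y n t = X n t) ∧
        (∀ n t, 0 ≤ t → 0 ≤ X n t) ∧
        -- the energy is finite and nonincreasing
        (∀ t, 0 ≤ t → Summable (fun n => X n t ^ 2)) ∧
        AntitoneOn (energy X) (Set.Ici 0) ∧
        -- universal bounds: the energy and the Onsager norm come down from infinity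
        (∀ t : ℝ, 0 < t → energy X t ≤ K / t ^ 2 ∧ ∀ n : ℕ, b ^ n * X n t ≤ K / t) ∧
        -- lossless smoothing into the Onsager space, with the rate of order 1/3
        (∀ s t : ℝ, 0 ≤ s → s < t → ∀ n : ℕ,
          (b ^ n * X n t) ^ 3 ≤ K * (energy X s * (Real.sqrt (energy X s) + 1 / (t - s)))) ∧
        -- propagation of the Onsager norm
        (∀ s A : ℝ, 0 ≤ s → (∀ n : ℕ, b ^ n * X n s ≤ A) →
          ∀ (n : ℕ) (t : ℝ), s ≤ t → b ^ n * X n t ≤ K * A) ∧
        -- the exponent is sharp for every nonzero solution, after every time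
        ((∃ n, X n 0 ≠ 0) → ∀ t₀ : ℝ, 0 ≤ t₀ → ∃ T : ℝ, t₀ < T ∧ ∀ c : ℝ, b < c → ∀ M : ℝ,
          ∃ n : ℕ, ∃ t ∈ Set.Icc t₀ T, M < c ^ n * X n t) := by
  have hb1 : 1 < b := by
    by_contra hcon
    push Not at hcon
    have : b ^ 3 ≤ 1 ^ 3 := by gcongr
    linarith
  have hb2 : 2 ≤ b ^ 2 := by
    by_contra hcon
    push Not at hcon
    have h1 : (b ^ 2) ^ 3 < 2 ^ 3 := by gcongr
    have h2 : (b ^ 3) ^ 2 = (b ^ 2) ^ 3 := by ring
    have h3 : (113 / 20 : ℝ) ^ 2 ≤ (b ^ 3) ^ 2 := by gcongr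
    rw [h2] at h3
    norm_num at h1 h3
    linarith
  obtain ⟨K, hK, hex, hall⟩ := all_solutions3 b hb h5
  set P : ℝ := 8 * (16 + 32 * b ^ 6) with hP
  have hP0 : 0 < P := by positivity
  set K' : ℝ := K + P ^ 2 + 1 + K * (8 * P ^ 2 * (P + 1)) with hK'
  have hKK : K ≤ K' := by
    have : 0 < P ^ 2 + 1 + K * (8 * P ^ 2 * (P + 1)) := by positivity
    rw [hK']; linarith
  refine ⟨K', by positivity, hex, ?_⟩
  intro X hX h0 hsum
  have hXn : ∀ n t, 0 ≤ t → 0 ≤ X n t := IsE.nonneg hb.le hX h0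
  set E : ℝ := ∑' n, X n 0 ^ 2 with hEd
  have hE0 : 0 ≤ E := tsum_nonneg (fun n => by positivity)
  have hEN0 : ∀ N, EN X N 0 ≤ Real.sqrt E ^ 2 := by
    intro N
    rw [Real.sq_sqrt hE0]
    exact hsum.sum_le_tsum _ (fun n _ => by positivity)
  have hs : ∀ t, 0 ≤ t → Summable (fun n => X n t ^ 2) :=
    IsE.summ hb.le hX h0 (Real.sqrt E) hEN0
  have hshift : ∀ s, 0 ≤ s → IsE b (fun n t => X n (s + t)) := fun s h => IsE.shift hX s h
  have hEt : Tendsto (energy X) atTop (𝓝 0) := by
    refine IsE.energy_tendsto2 hb1 hX h0 (1 + K * (E * (Real.sqrt E + 1))) (fun n t ht => ?_)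
    have h1 := (hall X hX h0 hsum).1 n t (by linarith)
    have h2 : 1 / t ≤ 1 := by rw [div_le_one (by linarith)]; exact ht
    have h3 : K * (E * (Real.sqrt E + 1 / t)) ≤ K * (E * (Real.sqrt E + 1)) := by gcongr
    have h4 : 0 ≤ K * (E * (Real.sqrt E + 1)) := by positivity
    have h5 : 0 ≤ b ^ n * X n t := by have := hXn n t (by linarith); positivity
    by_contra hcon
    push Not at hcon
    have h6 : 1 ≤ b ^ n * X n t := by linarith
    have h7 : b ^ n * X n t ≤ (b ^ n * X n t) ^ 3 := by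
      have := pow_le_pow_right₀ h6 (by norm_num : 1 ≤ 3)
      rwa [pow_one] at this
    linarith
  have hen0 : ∀ t, 0 ≤ energy X t := fun t => tsum_nonneg (fun n => by positivity)
  have hrate : ∀ s t : ℝ, 0 ≤ s → s < t → ∀ n : ℕ,
      (b ^ n * X n t) ^ 3 ≤ K * (energy X s * (Real.sqrt (energy X s) + 1 / (t - s))) := by
    intro s t hs0 hst n
    have h1 := (hall _ (hshift s hs0) (fun n => by simp only [add_zero]; exact hXn n s hs0)
      (by simp only [add_zero]; exact hs s hs0)).1 n (t - s) (by linarith)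
    simp only [add_zero] at h1
    rw [show s + (t - s) = t by ring] at h1
    exact h1
  have huniv : ∀ t : ℝ, 0 < t → energy X t ≤ P ^ 2 / t ^ 2 := by
    intro t ht
    have h1 := decay_univ hb1.le hb2 hX h0 hs t ht
    rw [le_div_iff₀ (by positivity)]
    have h2 : t ^ 2 * energy X t ≤ P ^ 2 := h1
    linarith
  refine ⟨fun Y hY hY0 => IsE.unique2 hb1.le hX hY h0 hY0 (Real.sqrt E) (Real.sqrt_nonneg _) hEN0,
    hXn, hs, IsE.energy_anti2 hb.le hX h0 hs, ?_, ?_, ?_, ?_⟩
  · intro t ht
    constructor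
    · refine (huniv t ht).trans ?_
      have h1 : P ^ 2 ≤ K' := by
        have : 0 < K + 1 + K * (8 * P ^ 2 * (P + 1)) := by positivity
        rw [hK']; linarith
      gcongr
    · intro n
      have h1 := hrate (t / 2) t (by linarith) (by linarith) n
      have h2 := huniv (t / 2) (by linarith)
      have h3 : P ^ 2 / (t / 2) ^ 2 = (2 * P / t) ^ 2 := by field_simp
      rw [h3] at h2
      have h4 : Real.sqrt (energy X (t / 2)) ≤ 2 * P / t := by
        rw [Real.sqrt_le_left (by positivity)]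
        exact h2
      have h5 : 1 / (t - t / 2) = 2 / t := by field_simp; ring
      rw [h5] at h1
      have h6 : energy X (t / 2) * (Real.sqrt (energy X (t / 2)) + 2 / t)
          ≤ (2 * P / t) ^ 2 * (2 * P / t + 2 / t) := by
        apply mul_le_mul h2 (by linarith) (by have := Real.sqrt_nonneg (energy X (t / 2)); positivity)
          (by positivity)
      have h7 := mul_le_mul_of_nonneg_left h6 hK.le
      have h8 : K * ((2 * P / t) ^ 2 * (2 * P / t + 2 / t)) = K * (8 * P ^ 2 * (P + 1)) / t ^ 3 := by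
        field_simp; ring
      rw [h8] at h7
      have h9 : K * (8 * P ^ 2 * (P + 1)) ≤ K' ^ 3 := by
        have g1 : K * (8 * P ^ 2 * (P + 1)) ≤ K' := by
          have : 0 < K + P ^ 2 + 1 := by positivity
          rw [hK']; linarith
        have g2 : 1 ≤ K' := by
          have : 0 < K + P ^ 2 + K * (8 * P ^ 2 * (P + 1)) := by positivity
          rw [hK']; linarith
        have g3 : K' ≤ K' ^ 3 := by
          have := pow_le_pow_right₀ g2 (by norm_num : 1 ≤ 3)
          rwa [pow_one] at this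
        linarith
      have h10 : (b ^ n * X n t) ^ 3 ≤ (K' / t) ^ 3 := by
        rw [div_pow]
        exact (h1.trans h7).trans (by gcongr)
      exact le_of_pow_le_pow_left₀ (by norm_num) (by positivity) h10
  · intro s t hs0 hst n
    refine (hrate s t hs0 hst n).trans ?_
    have h1 : 0 < 1 / (t - s) := by
      have : 0 < t - s := by linarith
      positivity
    have h2 : 0 ≤ energy X s * (Real.sqrt (energy X s) + 1 / (t - s)) :=
      mul_nonneg (hen0 s) (by have := Real.sqrt_nonneg (energy X s); linarith)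
    exact mul_le_mul_of_nonneg_right hKK h2
  · intro s A hs0 hA n t hst
    have h1 := (hall _ (hshift s hs0) (fun n => by simp only [add_zero]; exact hXn n s hs0)
      (by simp only [add_zero]; exact hs s hs0)).2 A (fun n => by simp only [add_zero]; exact hA n)
      n (t - s) (by linarith)
    rw [show s + (t - s) = t by ring] at h1
    have hA0 : 0 ≤ A := le_trans (by have := hXn 0 s hs0; positivity) (hA 0)
    exact h1.trans (mul_le_mul_of_nonneg_right hKK hA0)
  · rintro ⟨m, hm⟩ t₀ ht₀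
    have ham : 0 < X m 0 := lt_of_le_of_ne (h0 m) (Ne.symm hm)
    have hXS : ∀ n t, 0 ≤ t → X n t ≤ Real.sqrt E := by
      intro n t ht
      have h1 : X n t ^ 2 ≤ EN X n t :=
        Finset.single_le_sum (f := fun k => X k t ^ 2) (fun k _ => by positivity)
          (Finset.mem_range.2 (Nat.lt_succ_self n))
      have h2 := IsE.EN_anti hb.le hX h0 n (Set.mem_Ici.2 le_rfl) ht ht
      exact (le_abs_self _).trans (abs_le_of_sq_le_sq (h1.trans (h2.trans (hEN0 n))) (Real.sqrt_nonneg _))
    have hp := IsE.pos hb.le hX h0 (Real.sqrt E) hXS m ham t₀ ht₀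
    have hpos : 0 < ∑' n, X n t₀ ^ 2 := (hs t₀ ht₀).tsum_pos (fun n => by positivity) m (by positivity)
    exact IsE.sharp hb1 hX h0 hs hEt t₀ ht₀ hpos

end Pool.Agent.H306.DF.Unf
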