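import Pool.Agent.H306.DF.Main
import Pool.Agent.H306.DF.P1
import Pool.Agent.H306.DF.P2
import Pool.Agent.H306.DF.T0
import Pool.Agent.H306.DF.P3
import Pool.Agent.H306.DF.P4
import Pool.Agent.H306.DF.P5
import Pool.Agent.H306.DF.P6
import Pool.Agent.H306.DF.P7
import Pool.Agent.H306.DF.Unf

/-! Assembly. -/

namespace Pool.Agent.H306.DF

theorem c5 : C5 := p5 (p2 p1) t0 p3 p4

end Pool.Agent.H306.DF
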