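import Pool.Agent.H306.DF.Stm

/-! The bounds for every solution of the forced model. -/

set_option maxHeartbeats 4000000

namespace Pool.Agent.H306.DF

open Set Filter Topology Pool.Agent.H219.Dy Pool.Agent.H219.Dz

/-- the conclusion of `S_P5` -/
def C5 : Prop := ∀ (b : ℝ), 0 < b → 113/20 ≤ b ^ 3 →
  ∃ K : ℝ, 0 < K ∧ ∀ (f : ℝ), 0 ≤ f →
    ∀ a : ℕ → ℝ, (∀ n, 0 ≤ a n) → ∀ S : ℝ, 0 < S →
      (∀ N, ∑ n ∈ Finset.range (N+1), a n ^ 2 ≤ S ^ 2) →
      ∃ X : ℕ → ℝ → ℝ, IsF b f X ∧ (∀ n, X n 0 = a n) ∧ (∀ n t, 0 ≤ t → 0 ≤ X n t) ∧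
        (∀ (n : ℕ) t, 0 < t → (b ^ n * X n t) ^ 3 ≤ K * ((S + f * t) ^ 2 * (S + f * t + 1 / t))) ∧
        (∀ A : ℝ, (∀ n : ℕ, b ^ n * a n ≤ A) →
          ∀ (n : ℕ) t, 0 ≤ t → b ^ n * X n t ≤ K * (A + f * t))

theorem isF_zero {b : ℝ} {X : ℕ → ℝ → ℝ} : IsF b 0 X ↔ IsE b X := by
  unfold IsF IsE fo FE
  simp

theorem mainF (H5 : C5) (H6 : S_P6) (H7 : S_P7) (b : ℝ) (hb : 0 < b) (h5 : 113 / 20 ≤ b ^ 3) :
    ∃ K : ℝ, 0 < K ∧ ∀ f : ℝ, 0 ≤ f →
      (∀ a : ℕ → ℝ, (∀ n, 0 ≤ a n) → Summable (fun n => a n ^ 2) →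
        ∃ X : ℕ → ℝ → ℝ, IsF b f X ∧ ∀ n, X n 0 = a n) ∧
      ∀ X : ℕ → ℝ → ℝ, IsF b f X → (∀ n, 0 ≤ X n 0) → Summable (fun n => X n 0 ^ 2) →
        (∀ Y : ℕ → ℝ → ℝ, IsF b f Y → (∀ n, Y n 0 = X n 0) → ∀ n t, 0 ≤ t → Y n t = X n t) ∧
        (∀ n t, 0 ≤ t → 0 ≤ X n t) ∧
        (∀ t, 0 ≤ t → Summable (fun n => X n t ^ 2)) ∧
        (∀ s t : ℝ, 0 ≤ s → s ≤ t →
          Real.sqrt (∑' n, X n t ^ 2) ≤ Real.sqrt (∑' n, X n s ^ 2) + f * (t - s)) ∧
        (∀ s t : ℝ, 0 ≤ s → s < t → ∀ n : ℕ,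
          (b ^ n * X n t) ^ 3 ≤ K * ((Real.sqrt (∑' n, X n s ^ 2) + f * (t - s)) ^ 2
            * (Real.sqrt (∑' n, X n s ^ 2) + f * (t - s) + 1 / (t - s)))) ∧
        (∀ s A : ℝ, 0 ≤ s → (∀ n : ℕ, b ^ n * X n s ≤ A) →
          ∀ (n : ℕ) (t : ℝ), s ≤ t → b ^ n * X n t ≤ K * (A + f * (t - s))) := by
  have hb1 : 1 ≤ b := by
    by_contra hcon
    push Not at hcon
    have : b ^ 3 ≤ 1 ^ 3 := by gcongr
    linarith
  obtain ⟨K, hK, hex⟩ := H5 b hb h5
  have hsq : ∀ a : ℕ → ℝ, Summable (fun n => a n ^ 2) → ∀ N, ∑ n ∈ Finset.range (N+1), a n ^ 2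
      ≤ Real.sqrt (∑' n, a n ^ 2) ^ 2 := by
    intro a hs N
    rw [Real.sq_sqrt (tsum_nonneg (fun n => by positivity))]
    exact hs.sum_le_tsum _ (fun n _ => by positivity)
  refine ⟨K, hK, fun f hf => ⟨?_, ?_⟩⟩
  · intro a ha hs
    obtain ⟨X, h1, h2, _⟩ := hex f hf a ha (Real.sqrt (∑' n, a n ^ 2) + 1) (by positivity)
      (fun N => (hsq a hs N).trans (by
        have := Real.sqrt_nonneg (∑' n, a n ^ 2)
        gcongr; linarith))
    exact ⟨X, h1, h2⟩
  · intro X hX h0 hs0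
    obtain ⟨hnn, hgrow, hshift⟩ := H6 b hb.le f hf X hX h0
    -- summability at all times
    have hsum : ∀ t, 0 ≤ t → Summable (fun n => X n t ^ 2) := by
      intro t ht
      apply summable_of_sum_range_le (c := (Real.sqrt (∑' n, X n 0 ^ 2) + f * t) ^ 2)
        (fun n => by positivity)
      intro N
      rcases N with _ | N
      · simp; positivity
      · exact hgrow _ (Real.sqrt_nonneg _) (hsq _ hs0) N t ht
    -- the same for the shifted solution
    have hshX : ∀ s, 0 ≤ s → IsF b f (fun n t => X n (s + t)) := hshift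
    have huniq : ∀ (Z Y : ℕ → ℝ → ℝ), IsF b f Z → IsF b f Y → (∀ n, 0 ≤ Z n 0) →
        (∀ n, Y n 0 = Z n 0) → Summable (fun n => Z n 0 ^ 2) → ∀ n t, 0 ≤ t → Y n t = Z n t := by
      intro Z Y hZ hY hZ0 hYZ hZs
      exact H7 H6 b hb1 f hf Z Y hZ hY hZ0 hYZ (Real.sqrt (∑' n, Z n 0 ^ 2)) (Real.sqrt_nonneg _)
        (hsq (fun n => Z n 0) hZs)
    -- bounds from time 0 for any solution
    have hbase : ∀ (Z : ℕ → ℝ → ℝ), IsF b f Z → (∀ n, 0 ≤ Z n 0) → Summable (fun n => Z n 0 ^ 2) →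
        (∀ (n : ℕ) t, 0 < t → (b ^ n * Z n t) ^ 3 ≤ K * ((Real.sqrt (∑' n, Z n 0 ^ 2) + f * t) ^ 2
          * (Real.sqrt (∑' n, Z n 0 ^ 2) + f * t + 1 / t))) ∧
        (∀ A : ℝ, (∀ n : ℕ, b ^ n * Z n 0 ≤ A) →
          ∀ (n : ℕ) t, 0 ≤ t → b ^ n * Z n t ≤ K * (A + f * t)) := by
      intro Z hZ hZ0 hZs
      set r : ℝ := Real.sqrt (∑' n, Z n 0 ^ 2) with hr
      have hr0 : 0 ≤ r := Real.sqrt_nonneg _
      have key : ∀ δ : ℝ, 0 < δ →
          (∀ (n : ℕ) t, 0 < t → (b ^ n * Z n t) ^ 3 ≤ K * ((r + δ + f * t) ^ 2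
            * (r + δ + f * t + 1 / t))) ∧
          (∀ A : ℝ, (∀ n : ℕ, b ^ n * Z n 0 ≤ A) →
            ∀ (n : ℕ) t, 0 ≤ t → b ^ n * Z n t ≤ K * (A + f * t)) := by
        intro δ hδ
        obtain ⟨W, hW, hW0, _, hW1, hW2⟩ := hex f hf (fun n => Z n 0) hZ0 (r + δ) (by linarith)
          (fun N => (hsq _ hZs N).trans (by rw [← hr]; gcongr; linarith))
        have hWZ := huniq Z W hZ hW hZ0 hW0 hZs
        constructor
        · intro n t ht
          have := hW1 n t ht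
          rwa [hWZ n t ht.le] at this
        · intro A hA n t ht
          have := hW2 A hA n t ht
          rwa [hWZ n t ht] at this
      refine ⟨fun n t ht => ?_, (key 1 one_pos).2⟩
      have hc : Continuous (fun δ : ℝ => K * ((r + δ + f * t) ^ 2 * (r + δ + f * t + 1 / t))) := by
        fun_prop
      have hlim : Tendsto (fun δ : ℝ => K * ((r + δ + f * t) ^ 2 * (r + δ + f * t + 1 / t)))
          (𝓝[>] 0) (𝓝 (K * ((r + 0 + f * t) ^ 2 * (r + 0 + f * t + 1 / t)))) :=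
        (hc.tendsto 0).mono_left nhdsWithin_le_nhds
      rw [add_zero] at hlim
      apply ge_of_tendsto hlim
      filter_upwards [self_mem_nhdsWithin] with δ hδ
      exact (key δ hδ).1 n t ht
    refine ⟨fun Y hY hY0 => huniq X Y hX hY h0 hY0 hs0, hnn, hsum, ?_, ?_, ?_⟩
    · intro s t hs hst
      obtain ⟨_, hg, _⟩ := H6 b hb.le f hf _ (hshX s hs)
        (fun n => by simp only [add_zero]; exact hnn n s hs)
      have h1 := hg (Real.sqrt (∑' n, X n s ^ 2)) (Real.sqrt_nonneg _) (by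
        intro N
        have := hsq (fun n => X n s) (hsum s hs) N
        unfold EN
        simp only [add_zero]
        exact this)
      have h2 : ∑' n, X n t ^ 2 ≤ (Real.sqrt (∑' n, X n s ^ 2) + f * (t - s)) ^ 2 := by
        apply Real.tsum_le_of_sum_range_le (fun n => by positivity)
        intro N
        rcases N with _ | N
        · simp; positivity
        · have h3 := h1 N (t - s) (by linarith)
          unfold EN at h3
          simp only [add_sub_cancel] at h3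
          exact h3
      have h4 : 0 ≤ Real.sqrt (∑' n, X n s ^ 2) + f * (t - s) := by
        have : 0 ≤ t - s := by linarith
        positivity
      exact (Real.sqrt_le_sqrt h2).trans (le_of_eq (Real.sqrt_sq h4))
    · intro s t hs hst n
      have h1 := (hbase _ (hshX s hs) (fun n => by simp only [add_zero]; exact hnn n s hs)
        (by simp only [add_zero]; exact hsum s hs)).1 n (t - s) (by linarith)
      simp only [add_zero] at h1
      rw [show s + (t - s) = t by ring] at h1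
      exact h1
    · intro s A hs hA n t hst
      have h1 := (hbase _ (hshX s hs) (fun n => by simp only [add_zero]; exact hnn n s hs)
        (by simp only [add_zero]; exact hsum s hs)).2 A (fun n => by simp only [add_zero]; exact hA n)
        n (t - s) (by linarith)
      rw [show s + (t - s) = t by ring] at h1
      exact h1

end Pool.Agent.H306.DF
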