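import Pool.Agent.H219.Dz.All

/-! Statements for the inviscid dyadic model with a constant force `f ≥ 0` in the first mode. -/

namespace Pool.Agent.H306.DF

open Set Filter Topology Pool.Agent.H219.Dy Pool.Agent.H219.Dz

/-- the force: `f` in the mode `0`, nothing in the others -/
noncomputable def fo (f : ℝ) (n : ℕ) : ℝ := if n = 0 then f else 0

/-- solutions of the forced model -/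
def IsF (b f : ℝ) (X : ℕ → ℝ → ℝ) : Prop :=
  ∀ n : ℕ, ∀ t : ℝ, 0 ≤ t → HasDerivWithinAt (X n) (FE b (fun k => X k t) n + fo f n) (Ici 0) t

/-- P1. Truncated system with clamp: adapt `field`, `field_exists`, `trunc_exists` (Dy/Ode.lean)
and `trunc_nonneg` (Dy/Inv.lean) by adding `fo f n` to the field. -/
def S_P1 : Prop := ∀ (N : ℕ) (κ : ℕ → ℝ), (∀ n, 0 ≤ κ n) → ∀ (B : ℝ), 0 ≤ B → ∀ (f : ℝ), 0 ≤ f →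
  ∀ T : ℝ, 0 ≤ T → ∀ u0 : ℕ → ℝ, (∀ n, 0 ≤ u0 n) →
  ∃ U : ℕ → ℝ → ℝ, (∀ n, n ≤ N → U n 0 = u0 n) ∧ (∀ n, N ≤ n → U n = U N) ∧
    (∀ n, ∀ t ∈ Icc (0:ℝ) T, 0 ≤ U n t) ∧
    ∀ n, n ≤ N → ∀ t ∈ Icc (0:ℝ) T, HasDerivWithinAt (U n)
      (κ n * ((if n = 0 then 0 else cl B (U (n-1) t))^2 - cl B (U n t) * cl B (U (n+1) t))
        + fo f n) (Icc 0 T) t

/-- P2. Truncated solutions by the energy: adapt `trunc_exists2` (Dz/Exist.lean). The energy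
`e(t) = ∑ (U n t / b^n)^2` satisfies `e' ≤ 2 f U 0 t`, so `e(t) ≤ (S + f t)^2` (barrier with
`(S + η + (f + η) t)^2`, `η → 0`; for the clamp use the level with `η = 1`). -/
def S_P2 : Prop := ∀ (b : ℝ), 1 ≤ b → ∀ (f : ℝ), 0 ≤ f → ∀ (N : ℕ) (T : ℝ), 0 < T →
  ∀ (S : ℝ), 0 ≤ S → ∀ (u0 : ℕ → ℝ), (∀ n, 0 ≤ u0 n) →
  ∑ n ∈ Finset.range (N+1), (u0 n / b ^ n) ^ 2 ≤ S ^ 2 →
  ∃ U : ℕ → ℝ → ℝ, (∀ n, n ≤ N → U n 0 = u0 n) ∧ (∀ n, N ≤ n → U n = U N) ∧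
    (∀ n, ∀ t ∈ Icc (0:ℝ) T, 0 ≤ U n t) ∧
    (∀ n, n ≤ N → ∀ t ∈ Icc (0:ℝ) T, HasDerivWithinAt (U n)
      (b ^ (2 * n) / b * ((if n = 0 then 0 else U (n-1) t)^2 - U n t * U (n+1) t) + fo f n)
      (Icc 0 T) t) ∧
    ∀ S' : ℝ, 0 ≤ S' → ∑ n ∈ Finset.range (N+1), (u0 n / b ^ n) ^ 2 ≤ S' ^ 2 →
      ∀ t ∈ Icc (0:ℝ) T, ∑ n ∈ Finset.range (N+1), (U n t / b ^ n) ^ 2 ≤ (S' + f * t) ^ 2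

/-- the conclusion of `trunc_tilt3` with `r` in place of `317/100` -/
def TiltOK (R r : ℝ) : Prop := ∀ (N : ℕ) (κ : ℕ → ℝ), (∀ n, 0 < κ n) → (∀ n, κ (n+1) = R * κ n) →
  ∀ (ε : ℕ → ℝ), (∀ n, 0 < ε n) → (∀ n, ε n ≤ 1/100) → (∀ n, ε n = r * ε (n+1)) →
  ∀ (T : ℝ) (M M' : ℝ → ℝ), (∀ t ∈ Icc (0:ℝ) T, HasDerivWithinAt M (M' t) (Icc 0 T) t) →
    (∀ t ∈ Icc (0:ℝ) T, 0 < M t) → (∀ t ∈ Icc (0:ℝ) T, M' t ≤ 0) →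
    (∀ n, ∀ t ∈ Icc (0:ℝ) T, - M' t ≤ κ n * ε n * M t ^ 2 / 200) →
  ∀ (U : ℕ → ℝ → ℝ), (∀ n, ∀ t ∈ Icc (0:ℝ) T, 0 ≤ U n t) → (∀ n, N ≤ n → U n = U N) →
    (∀ n, n ≤ 2 → ∀ t ∈ Icc (0:ℝ) T, U n t ≤ M t / 5) →
    (∀ n, n ≤ N → U n 0 ≤ M 0 / 5) → 0 ≤ T →
    (∀ n, 1 ≤ n → n ≤ N → ∀ t ∈ Icc (0:ℝ) T, HasDerivWithinAt (U n)
        (κ n * ((if n = 0 then 0 else U (n-1) t)^2 - U n t * U (n+1) t)) (Icc 0 T) t) →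
    ∀ n, ∀ t ∈ Icc (0:ℝ) T, U n t ≤ M t

/-- T0. The tilt property for all ratios `b²` (from `trunc_tilt3` and `trunc_tilt`; the latter has
the weaker conditions `- M' t ≤ κ n * ε n * M t ^ 2` and `n ≤ 1`). -/
def S_T0 : Prop := ∀ b : ℝ, 0 < b → 113/20 ≤ b ^ 3 →
  ∃ r : ℝ, 1 < r ∧ r ≤ b ^ 2 ∧ 317/100 ≤ b ^ 2 ∧ TiltOK (b ^ 2) r

/-- P3. Adapt `trunc_family3` (Dz/Smooth.lean): the bound at the time `t` is obtained by applying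
the tilt property on `[0, t]`, where the energy is at most `(S + f t)^2` (so the modes `n ≤ 2` are
at most `b^2 (S + f t)`, etc). `ε n = 1/100 / r^n`. -/
def S_P3 : Prop := S_P2 → ∀ (b : ℝ), 1 ≤ b → ∀ (r : ℝ), 1 < r → r ≤ b ^ 2 → 317/100 ≤ b ^ 2 →
  TiltOK (b ^ 2) r → ∀ (f : ℝ), 0 ≤ f → ∀ (a : ℕ → ℝ), (∀ n, 0 ≤ a n) → ∀ (S : ℝ), 0 < S →
  (∀ N, ∑ n ∈ Finset.range (N+1), a n ^ 2 ≤ S ^ 2) → ∀ (N : ℕ) (m0 : ℝ), 0 < m0 →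
  (∀ n, n ≤ N + 2 → b ^ n * a n ≤ m0) →
  ∃ V : ℕ → ℝ → ℝ, (∀ n, n ≤ N + 2 → V n 0 = a n) ∧
    (∀ n, ∀ t ∈ Icc (0:ℝ) ((N:ℝ)+1), 0 ≤ V n t ∧ V n t ≤ S + f * t) ∧
    (∀ n, ∀ t ∈ Icc (0:ℝ) ((N:ℝ)+1), b ^ n * V n t ≤ (10 * b ^ 2) * (m0 + f * t)) ∧
    (∀ m, m ≤ N + 2 → ∀ n, n ≤ N + 2 → ∀ t ∈ Icc (0:ℝ) ((N:ℝ)+1), 0 < t →
      b ^ n * V n t ≤ 5 * b ^ (m+2) * (S + f * t) + 20000 * b / b ^ (2 * m) * (1 / t)) ∧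
    ∀ n, n ≤ N + 2 → ∀ t ∈ Icc (0:ℝ) ((N:ℝ)+1), HasDerivWithinAt (V n)
      (FE b (fun k => V k t) n + fo f n) (Icc 0 ((N:ℝ)+1)) t

/-- P4. Limit: adapt `limit_exists2` (Dy/Limit2.lean; `rhs_FE` in Dy/EulerS.lean translates
`rhs` into `FE`), with the force and the time dependent bound `S + f t`. -/
def S_P4 : Prop := ∀ (b : ℝ), 0 < b → ∀ (f : ℝ), 0 ≤ f → ∀ (S : ℝ), 0 ≤ S → ∀ (u0 : ℕ → ℝ)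
  (V : ℕ → ℕ → ℝ → ℝ), (∀ (N n : ℕ), n ≤ N → V N n 0 = u0 n) →
  (∀ (N n : ℕ), ∀ t ∈ Icc (0:ℝ) ((N:ℝ)+1), 0 ≤ V N n t ∧ V N n t ≤ S + f * t) →
  (∀ (N n : ℕ), n ≤ N → ∀ t ∈ Icc (0:ℝ) ((N:ℝ)+1), HasDerivWithinAt (V N n)
    (FE b (fun k => V N k t) n + fo f n) (Icc 0 ((N:ℝ)+1)) t) →
  ∃ U : ℕ → ℝ → ℝ, (∀ n, U n 0 = u0 n) ∧ (∀ n t, 0 ≤ t → 0 ≤ U n t ∧ U n t ≤ S + f * t) ∧
    IsF b f U ∧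
    ∀ n t, 0 ≤ t → ∀ c : ℝ, (∀ᶠ N : ℕ in atTop, V N n t ≤ c) → U n t ≤ c

/-- P5. Adapt `smooth_exists3` (Dz/Smooth.lean); `opt_shell3` is used with `S + f t`. -/
def S_P5 : Prop := S_P2 → S_T0 → S_P3 → S_P4 → ∀ (b : ℝ), 0 < b → 113/20 ≤ b ^ 3 →
  ∃ K : ℝ, 0 < K ∧ ∀ (f : ℝ), 0 ≤ f →
    ∀ a : ℕ → ℝ, (∀ n, 0 ≤ a n) → ∀ S : ℝ, 0 < S →
      (∀ N, ∑ n ∈ Finset.range (N+1), a n ^ 2 ≤ S ^ 2) →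
      ∃ X : ℕ → ℝ → ℝ, IsF b f X ∧ (∀ n, X n 0 = a n) ∧ (∀ n t, 0 ≤ t → 0 ≤ X n t) ∧
        (∀ (n : ℕ) t, 0 < t → (b ^ n * X n t) ^ 3 ≤ K * ((S + f * t) ^ 2 * (S + f * t + 1 / t))) ∧
        (∀ A : ℝ, (∀ n : ℕ, b ^ n * a n ≤ A) →
          ∀ (n : ℕ) t, 0 ≤ t → b ^ n * X n t ≤ K * (A + f * t))

/-- P6. Positivity, energy growth, shift: adapt `IsE.nonneg`, `IsE.EN_deriv`, `IsE.EN_anti`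
(Dy/Euler.lean) and `IsE.shift` (Dy/EulerT.lean). -/
def S_P6 : Prop := ∀ (b : ℝ), 0 ≤ b → ∀ (f : ℝ), 0 ≤ f → ∀ (X : ℕ → ℝ → ℝ), IsF b f X →
  (∀ n, 0 ≤ X n 0) →
  (∀ n t, 0 ≤ t → 0 ≤ X n t) ∧
  (∀ S : ℝ, 0 ≤ S → (∀ N, EN X N 0 ≤ S ^ 2) → ∀ N t, 0 ≤ t → EN X N t ≤ (S + f * t) ^ 2) ∧
  (∀ s : ℝ, 0 ≤ s → IsF b f (fun n t => X n (s + t)))

/-- P7. Uniqueness: adapt `IsE.cube` and `IsE.unique2` (Dy/EulerV.lean). In `cube` all bounds are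
on `[0, T]`, with `S` replaced by `S + f T`; the derivative of `EN X N` is now
`-2 b^(3N) X_N^2 X_{N+1} + 2 f X_0`, so a term linear in `t` is added to `g` to compensate
`-(1/(2κ)) * 4 f X_0`, and the source of the mode `0` is `f ≥ 0` (in `cube_point` the source `s ≥ 0`
is arbitrary). -/
def S_P7 : Prop := S_P6 → ∀ (b : ℝ), 1 ≤ b → ∀ (f : ℝ), 0 ≤ f → ∀ (X Y : ℕ → ℝ → ℝ), IsF b f X →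
  IsF b f Y → (∀ n, 0 ≤ X n 0) → (∀ n, Y n 0 = X n 0) → ∀ (S : ℝ), 0 ≤ S →
  (∀ N, EN X N 0 ≤ S ^ 2) → ∀ n t, 0 ≤ t → Y n t = X n t

end Pool.Agent.H306.DF
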